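import Pool.Agent.T9h94.QS.Taylor

set_option autoImplicit false

/-!
# Antisymmetry of the terms modulo the cyclotomic polynomial
-/

namespace Pool.Agent.T9h94.QS

open Finset Polynomial

variable {C : Type*} [CommRing C]

/-- `∏_{i<m} (-u^(d²(M-i)))`. -/
def sig (u : Cˣ) (d M : ℕ) (m : ℕ) : Cˣ := ∏ i ∈ range m, (-(u ^ ((d : ℤ) ^ 2 * ((M : ℤ) - i))))

/-- `∑_{i<m} (M - i)`. -/
def tri (M m : ℕ) : ℤ := ∑ i ∈ range m, ((M : ℤ) - i)

lemma two_tri (M m : ℕ) : 2 * tri M m = m * (2 * M - m + 1) := by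
  unfold tri
  induction m with
  | zero => simp
  | succ m ih => rw [sum_range_succ, mul_add, ih]; push_cast; ring

lemma sig_eq (u : Cˣ) (d M m : ℕ) : sig u d M m = (-1) ^ m * u ^ ((d : ℤ) ^ 2 * tri M m) := by
  unfold sig tri
  induction m with
  | zero => simp
  | succ m ih =>
    have e : (-1 : Cˣ) ^ (m + 1) = -((-1) ^ m) := by rw [pow_succ, mul_neg_one]
    rw [prod_range_succ, ih, sum_range_succ, mul_add, zpow_add, e]
    rw [mul_neg, neg_mul, mul_assoc]

lemma key_pow (u : Cˣ) (d t M k : ℕ) (hd : d = 2 * t + 1) (ht : 1 ≤ t) (hk : k ≤ M)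
    (h1 : u ^ (d * M + 1) = 1) (h2 : ∀ ρ : ℕ, 2 * ρ = d * M + 1 → Odd M → u ^ ρ = -1) :
    u ^ (-1 - 2 * (d : ℤ) * k) * (u ^ (d * (t - 1) * (M - k)) * sig u d M k) =
      u ^ (d * (t - 1) * k) * sig u d M (M - k) := by
  rw [sig_eq, sig_eq]
  have t1 := two_tri M k
  have t2 := two_tri M (M - k)
  have hMk : ((M - k : ℕ) : ℤ) = M - k := by omega
  rw [hMk] at t2
  have e1 : u ^ (d * (t - 1) * (M - k)) = u ^ ((d : ℤ) * (t - 1) * (M - k)) := by
    rw [← zpow_natCast]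
    congr 1
    push_cast [ht, hk]
    ring
  have e2 : u ^ (d * (t - 1) * k) = u ^ ((d : ℤ) * (t - 1) * k) := by
    rw [← zpow_natCast]
    congr 1
    push_cast [ht]
    ring
  rw [e1, e2]
  have h1' : u ^ ((d : ℤ) * M + 1) = 1 := by
    rw [← h1, ← zpow_natCast]
    push_cast
    rfl
  have hd' : (d : ℤ) = 2 * t + 1 := by exact_mod_cast hd
  set A := (-1 - 2 * (d : ℤ) * k) + (d : ℤ) * (t - 1) * (M - k) + (d : ℤ) ^ 2 * tri M k with hA
  set B := (d : ℤ) * (t - 1) * k + (d : ℤ) ^ 2 * tri M (M - k) with hB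
  have hAB : 2 * (A - B) = -(((d : ℤ) * M + 1) * (2 + d * (M - 2 * k))) := by
    rw [hA, hB]
    have : 2 * ((-1 - 2 * (d : ℤ) * k) + (d : ℤ) * (t - 1) * (M - k) + (d : ℤ) ^ 2 * tri M k -
        ((d : ℤ) * (t - 1) * k + (d : ℤ) ^ 2 * tri M (M - k))) =
        2 * (-1 - 2 * (d : ℤ) * k) + 2 * (d : ℤ) * (t - 1) * (M - 2 * k) +
        (d : ℤ) ^ 2 * (2 * tri M k - 2 * tri M (M - k)) := by ring
    rw [this, t1, t2, hd']
    ring
  have hk2 : (-1 : Cˣ) ^ (M - k) * (-1) ^ k = (-1) ^ M := by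
    rw [← pow_add]; congr 1; omega
  have hsgn : u ^ (A - B) = (-1) ^ M := by
    rcases Nat.even_or_odd M with hM | hM
    · obtain ⟨μ, hμ⟩ := hM
      have hMμ : (M : ℤ) = 2 * μ := by rw [hμ]; push_cast; ring
      have : A - B = ((d : ℤ) * M + 1) * (-(1 + d * (μ - k))) := by
        have : 2 * (A - B) = 2 * (((d : ℤ) * M + 1) * (-(1 + d * (μ - k)))) := by
          rw [hAB]; nth_rewrite 2 [hMμ]; ring
        linarith
      rw [this, zpow_mul, h1', one_zpow]
      have hev : Even M := ⟨μ, hμ⟩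
      exact hev.neg_one_pow.symm
    · have hodd : Odd (d * M) := by
        rw [Nat.odd_mul]
        exact ⟨⟨t, hd⟩, hM⟩
      obtain ⟨c, hc⟩ := hodd
      have hρ := h2 (c + 1) (by omega) hM
      have hcc : (d : ℤ) * M + 1 = 2 * (c + 1 : ℕ) := by
        have : ((d * M : ℕ) : ℤ) = 2 * c + 1 := by exact_mod_cast hc
        push_cast at this ⊢
        linarith
      have : A - B = ((c + 1 : ℕ) : ℤ) * (-(2 + d * (M - 2 * k))) := by
        have : 2 * (A - B) = 2 * (((c + 1 : ℕ) : ℤ) * (-(2 + d * (M - 2 * k)))) := by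
          rw [hAB, hcc]; ring
        linarith
      rw [this, zpow_mul, zpow_natCast, hρ, hM.neg_one_pow]
      apply Odd.neg_one_zpow
      rw [odd_neg]
      obtain ⟨c2, hc2⟩ := hM
      refine ⟨1 + (2 * t + 1) * (c2 - k) + t, ?_⟩
      have : (M : ℤ) = 2 * c2 + 1 := by exact_mod_cast hc2
      rw [this, hd']
      ring
  have hfin : u ^ A = (-1) ^ M * u ^ B := by
    have : A = (A - B) + B := by ring
    rw [this, zpow_add, hsgn]
  have l1 : u ^ (-1 - 2 * (d : ℤ) * k) * (u ^ ((d : ℤ) * (t - 1) * (M - k)) *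
      ((-1) ^ k * u ^ ((d : ℤ) ^ 2 * tri M k))) = (-1) ^ k * u ^ A := by
    rw [hA, zpow_add, zpow_add]
    simp only [mul_left_comm, mul_assoc]
  have l2 : u ^ ((d : ℤ) * (t - 1) * k) * ((-1) ^ (M - k) * u ^ ((d : ℤ) ^ 2 * tri M (M - k))) =
      (-1) ^ (M - k) * u ^ B := by
    rw [hB, zpow_add]
    simp only [mul_left_comm, mul_assoc]
  rw [l1, l2, hfin, ← hk2]
  have hkk : (-1 : Cˣ) ^ k * (-1) ^ k = 1 := by
    rw [← pow_add, ← two_mul, pow_mul]
    simp
  calc (-1 : Cˣ) ^ k * ((-1) ^ (M - k) * (-1) ^ k * u ^ B)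
      = ((-1 : Cˣ) ^ k * (-1) ^ k) * ((-1) ^ (M - k) * u ^ B) := by
        simp only [mul_left_comm, mul_assoc]
    _ = _ := by rw [hkk, one_mul]

/-- The sum vanishes by antisymmetry. -/
theorem W_anti (u : Cˣ) (h : C) (hh : 2 * h = 1) (d t M : ℕ) (hd : d = 2 * t + 1) (ht : 1 ≤ t)
    (h1 : u ^ (d * M + 1) = 1) (h2 : ∀ ρ : ℕ, 2 * ρ = d * M + 1 → Odd M → u ^ ρ = -1)
    (ν δ : C → C) (hνδ : ∀ c c' : C, c * c' = 1 → ν c * c' ^ (2 * t) = δ c') :
    W d (d * (t - 1)) M (u : C) ν δ = 0 := by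
  set q : C := (u : C) with hq
  have hq1 : q ^ (d * M + 1) = 1 := by
    rw [hq, ← Units.val_pow_eq_pow_val, h1, Units.val_one]
  set A : ℕ → C := fun j => (1 - q ^ (1 + d * j)) * ν (q ^ (1 + d * j)) with hA
  have hB : ∀ l, l ≤ M → (1 - q ^ (d * l)) * δ (q ^ (d * l)) =
      -(q ^ (d ^ 2 * l)) * A (M - l) := by
    intro l hl
    have hcc : q ^ (1 + d * (M - l)) * q ^ (d * l) = 1 := by
      rw [← pow_add, ← hq1]
      congr 1
      have : d * M = d * (M - l) + d * l := by rw [← mul_add]; congr 1; omega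
      omega
    rw [← hνδ _ _ hcc]
    have e1 : q ^ (d ^ 2 * l) = q ^ (d * l) * (q ^ (d * l)) ^ (2 * t) := by
      rw [← pow_succ', ← pow_mul]
      congr 1
      rw [← hd]
      ring
    simp only [hA]
    rw [e1]
    linear_combination (-(ν (q ^ (1 + d * (M - l))) * (q ^ (d * l)) ^ (2 * t))) * hcc
  set PA : ℕ → C := fun k => ∏ j ∈ range k, A j with hPA
  have hsig : ∀ m, m ≤ M → ∏ j ∈ Ico (M - m + 1) (M + 1), ((1 - q ^ (d * j)) * δ (q ^ (d * j))) =
      PA m * (sig u d M m : C) := by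
    intro m hm
    rw [Finset.prod_Ico_eq_prod_range]
    have e1 : M + 1 - (M - m + 1) = m := by omega
    rw [e1, ← Finset.prod_range_reflect]
    have e2 : (sig u d M m : C) = ∏ i ∈ range m, (-(q ^ (d ^ 2 * (M - i)))) := by
      unfold sig
      rw [Units.coe_prod]
      refine Finset.prod_congr rfl fun i hi => ?_
      rw [mem_range] at hi
      rw [Units.val_neg, neg_inj, hq, ← Units.val_pow_eq_pow_val, ← zpow_natCast]
      congr 2
      have : ((M - i : ℕ) : ℤ) = M - i := by omega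
      push_cast
      rw [this]
    rw [e2, hPA]
    simp only []
    rw [← Finset.prod_mul_distrib]
    refine Finset.prod_congr rfl fun i hi => ?_
    rw [mem_range] at hi
    have e3 : M - m + 1 + (m - 1 - i) = M - i := by omega
    rw [e3, hB _ (by omega)]
    have e4 : M - (M - i) = i := by omega
    rw [e4]
    ring
  set T : ℕ → C := fun k => (1 - q ^ (1 + 2 * d * k)) * q ^ (d * (t - 1) * k) *
    (∏ j ∈ range k, ((1 - q ^ (1 + d * j)) * ν (q ^ (1 + d * j)))) *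
    ∏ j ∈ Ico (k + 1) (M + 1), ((1 - q ^ (d * j)) * δ (q ^ (d * j))) with hT
  have hTk : ∀ k, k ≤ M → T k = (1 - q ^ (1 + 2 * d * k)) * q ^ (d * (t - 1) * k) * PA k *
      (PA (M - k) * (sig u d M (M - k) : C)) := by
    intro k hk
    have := hsig (M - k) (by omega)
    have e : M - (M - k) = k := by omega
    rw [e] at this
    simp only [hT]
    rw [this]
  have hTT : ∀ k, k ≤ M → T (M - k) = -T k := by
    intro k hk
    rw [hTk k hk, hTk (M - k) (by omega)]
    have e : M - (M - k) = k := by omega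
    rw [e]
    have hkey := congrArg (fun x : Cˣ => (x : C)) (key_pow u d t M k hd ht hk h1 h2)
    simp only [Units.val_mul, Units.val_pow_eq_pow_val] at hkey
    rw [← hq] at hkey
    have e5 : (1 - q ^ (1 + 2 * d * (M - k))) =
        -((u ^ (-1 - 2 * (d : ℤ) * k) : Cˣ) : C) * (1 - q ^ (1 + 2 * d * k)) := by
      have e6 : ((u ^ (-1 - 2 * (d : ℤ) * k) : Cˣ) : C) * q ^ (1 + 2 * d * k) = 1 := by
        rw [hq, ← Units.val_pow_eq_pow_val, ← Units.val_mul, ← zpow_natCast, ← zpow_add]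
        have : (-1 - 2 * (d : ℤ) * k + ((1 + 2 * d * k : ℕ) : ℤ)) = 0 := by push_cast; ring
        rw [this, zpow_zero, Units.val_one]
      have e7 : q ^ (1 + 2 * d * (M - k)) = ((u ^ (-1 - 2 * (d : ℤ) * k) : Cˣ) : C) := by
        have e8 : q ^ (1 + 2 * d * (M - k)) * q ^ (1 + 2 * d * k) = 1 := by
          rw [← pow_add]
          have : 1 + 2 * d * (M - k) + (1 + 2 * d * k) = (d * M + 1) * 2 := by
            have h3 : d * M = d * (M - k) + d * k := by rw [← mul_add]; congr 1; omega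
            nlinarith
          rw [this, pow_mul, hq1, one_pow]
        calc q ^ (1 + 2 * d * (M - k)) = q ^ (1 + 2 * d * (M - k)) *
            (((u ^ (-1 - 2 * (d : ℤ) * k) : Cˣ) : C) * q ^ (1 + 2 * d * k)) := by
              rw [e6, mul_one]
          _ = (q ^ (1 + 2 * d * (M - k)) * q ^ (1 + 2 * d * k)) *
            ((u ^ (-1 - 2 * (d : ℤ) * k) : Cˣ) : C) := by ring
          _ = _ := by rw [e8, one_mul]
      rw [e7]
      linear_combination -e6
    rw [e5]
    linear_combination (-(1 - q ^ (1 + 2 * d * k)) * PA k * PA (M - k)) * hkey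
  have hsum : W d (d * (t - 1)) M q ν δ = ∑ k ∈ range (M + 1), T k := rfl
  have h3 : ∑ k ∈ range (M + 1), T k = -∑ k ∈ range (M + 1), T k := by
    nth_rewrite 1 [← Finset.sum_range_reflect]
    rw [← Finset.sum_neg_distrib]
    refine Finset.sum_congr rfl fun k hk => ?_
    rw [mem_range] at hk
    have : M + 1 - 1 - k = M - k := by omega
    rw [this]
    exact hTT k (by omega)
  rw [hsum]
  linear_combination h * h3 - (∑ k ∈ range (M + 1), T k) * hh

lemma numF_anti (Y : C) (L : List (ℕ × ℕ)) (t : ℕ) (hL : L.length = 2 * t) (c c' : C)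
    (hcc : c * c' = 1) : numF Y L c * c' ^ (2 * t) = denF Y L c' := by
  have h1 : ∀ L : List (ℕ × ℕ), numF Y L c * c' ^ L.length = (-1) ^ L.length * denF Y L c' := by
    intro L
    unfold numF denF
    induction L with
    | nil => simp
    | cons x L ih =>
      simp only [List.map_cons, List.prod_cons, List.length_cons, pow_succ]
      have e : (Y ^ x.2 - c * Y ^ x.1) * c' = -(Y ^ x.1 - c' * Y ^ x.2) := by
        linear_combination (-(Y ^ x.1)) * hcc
      calc (Y ^ x.2 - c * Y ^ x.1) * (List.map (fun x => Y ^ x.2 - c * Y ^ x.1) L).prod *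
            (c' ^ L.length * c')
          = ((Y ^ x.2 - c * Y ^ x.1) * c') *
            ((List.map (fun x => Y ^ x.2 - c * Y ^ x.1) L).prod * c' ^ L.length) := by ring
        _ = _ := by rw [e, ih]; ring
  have h2 := h1 L
  rw [hL] at h2
  rw [h2, pow_mul]
  simp

lemma nuK_anti (κ : C) (t : ℕ) (ht : 1 ≤ t) (c c' : C) (hcc : c * c' = 1) :
    nuK (2 * t - 2) κ c * c' ^ (2 * t) = nuK (2 * t - 2) κ c' := by
  obtain ⟨s, rfl⟩ : ∃ s, t = s + 1 := ⟨t - 1, by omega⟩
  have e : 2 * (s + 1) - 2 = 2 * s := by omega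
  rw [e]
  unfold nuK
  have h1 : (1 - c) * c' = -(1 - c') := by linear_combination -hcc
  have h2 : (1 - c) ^ (2 * s) * c' ^ (2 * s) = (1 - c') ^ (2 * s) := by
    rw [← mul_pow, h1, neg_pow, pow_mul (-1 : C)]
    simp
  have h3 : (1 - c) ^ 2 * c' ^ 2 = (1 - c') ^ 2 := by
    rw [← mul_pow, h1]; ring
  have e1 : 2 * (s + 1) = 2 * s + 2 := by ring
  rw [e1, pow_add (1 - c), pow_add c', pow_add (1 - c')]
  calc ((1 - c) ^ (2 * s) * (1 - c) ^ 2 - κ * c * (1 - c) ^ (2 * s)) * (c' ^ (2 * s) * c' ^ 2)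
      = ((1 - c) ^ (2 * s) * c' ^ (2 * s)) * ((1 - c) ^ 2 * c' ^ 2) -
        κ * (c * c') * c' * ((1 - c) ^ (2 * s) * c' ^ (2 * s)) := by ring
    _ = _ := by rw [h2, h3, hcc]; ring

end Pool.Agent.T9h94.QS
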