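import Pool.Agent.T9h94.QS.Expand

set_option autoImplicit false

/-!
# Divisibility by powers of the cyclotomic polynomial
-/

namespace Pool.Agent.T9h94.QS

open Finset Polynomial

lemma two_values (P z0 z1 w : ℚ[X]) (a b : ℚ) (hab : a ≠ b) (h1 : P ∣ z0 + z1 * C a * w)
    (h2 : P ∣ z0 + z1 * C b * w) : P ∣ z0 := by
  have h3 : P ∣ C b * (z0 + z1 * C a * w) - C a * (z0 + z1 * C b * w) :=
    dvd_sub (h1.mul_left _) (h2.mul_left _)
  have h4 : C b * (z0 + z1 * C a * w) - C a * (z0 + z1 * C b * w) = C (b - a) * z0 := by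
    rw [C_sub]; ring
  rw [h4] at h3
  have h5 : z0 = C ((b - a)⁻¹) * (C (b - a) * z0) := by
    rw [← mul_assoc, ← C_mul, inv_mul_cancel₀ (sub_ne_zero.2 hab.symm), C_1, one_mul]
  rw [h5]
  exact h3.mul_left _

lemma eval_expansion (L : List (ℕ × ℕ)) (N : ℕ) (hL : L.length = N + 2) (h0 : (dif L).sum = 0)
    (d e M n : ℕ) (hv : (WY L d e M).eval (X ^ n) = 0) : ∃ G : ℚ[X][X],
      (WY L d e M =
      X ^ ((L.map fun x => x.2).sum * M) * (C ((Zp N d e M).coeff 0) +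
        C ((Zp N d e M).coeff 1 * C ((sq L : ℚ) / 2)) * (X - 1) ^ 2) + (X - 1) ^ 3 * G) ∧
      (X ^ n) ^ ((L.map fun x => x.2).sum * M) * ((Zp N d e M).coeff 0 +
        (Zp N d e M).coeff 1 * C ((sq L : ℚ) / 2) * (X ^ n - 1) ^ 2) =
          -((X ^ n - 1) ^ 3 * G.eval (X ^ n)) := by
  obtain ⟨G, hG⟩ := expansion L N hL h0 d e M
  refine ⟨G, hG, ?_⟩
  have h1 := congrArg (Polynomial.eval (X ^ n)) hG
  rw [hv] at h1
  simp only [eval_add, eval_mul, eval_pow, eval_X, eval_C, eval_sub, eval_one] at h1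
  linear_combination -h1

lemma dvd3 (Φ : ℚ[X]) (hX : IsCoprime Φ X) (L : List (ℕ × ℕ)) (N : ℕ) (hL : L.length = N + 2)
    (h0 : (dif L).sum = 0) (d e M n : ℕ) (hn : Φ ∣ X ^ n - 1)
    (hv : (WY L d e M).eval (X ^ n) = 0) :
    Φ ^ 3 ∣ (Zp N d e M).coeff 0 +
        (Zp N d e M).coeff 1 * C ((sq L : ℚ) / 2) * (X ^ n - 1) ^ 2 := by
  obtain ⟨G, -, hG⟩ := eval_expansion L N hL h0 d e M n hv
  have h1 : Φ ^ 3 ∣ (X ^ n) ^ ((L.map fun x => x.2).sum * M) * ((Zp N d e M).coeff 0 +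
        (Zp N d e M).coeff 1 * C ((sq L : ℚ) / 2) * (X ^ n - 1) ^ 2) := by
    rw [hG, dvd_neg]
    exact (pow_dvd_pow_of_dvd hn 3).mul_right _
  exact (IsCoprime.pow (hX.pow_right (n := n))).dvd_of_dvd_mul_left h1

lemma C_dvd_of_map (Φ : ℚ[X]) (P : ℚ[X][X])
    (h : P.map (Ideal.Quotient.mk (Ideal.span {Φ})) = 0) : C Φ ∣ P := by
  rw [C_dvd_iff_dvd_coeff]
  intro i
  have := congrArg (fun p => p.coeff i) h
  simp only [coeff_map, coeff_zero] at this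
  rwa [Ideal.Quotient.eq_zero_iff_mem, Ideal.mem_span_singleton] at this

lemma dvd4 (Φ : ℚ[X]) (hΦ : Prime Φ) (hX : IsCoprime Φ X) (L : List (ℕ × ℕ)) (N : ℕ)
    (hL : L.length = N + 2)
    (h0 : (dif L).sum = 0) (d e M n : ℕ) (hn : Φ ∣ X ^ n - 1)
    (hv : (WY L d e M).eval (X ^ n) = 0) (hW : C Φ ∣ WY L d e M) (hZ : C Φ ∣ Zp N d e M) :
    Φ ^ 4 ∣ (Zp N d e M).coeff 0 +
        (Zp N d e M).coeff 1 * C ((sq L : ℚ) / 2) * (X ^ n - 1) ^ 2 := by
  obtain ⟨G, hG1, hG⟩ := eval_expansion L N hL h0 d e M n hv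
  have hp : Prime (C Φ) := prime_C_iff.2 hΦ
  have hz0 : Φ ∣ (Zp N d e M).coeff 0 := (C_dvd_iff_dvd_coeff _ _).1 hZ 0
  have hz1 : Φ ∣ (Zp N d e M).coeff 1 := (C_dvd_iff_dvd_coeff _ _).1 hZ 1
  have h1 : C Φ ∣ (X - 1) ^ 3 * G := by
    have e1 : (X - 1) ^ 3 * G = WY L d e M -
      X ^ ((L.map fun x => x.2).sum * M) * (C ((Zp N d e M).coeff 0) +
        C ((Zp N d e M).coeff 1 * C ((sq L : ℚ) / 2)) * (X - 1) ^ 2) := by
      rw [hG1]; ring
    rw [e1]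
    refine dvd_sub hW (Dvd.dvd.mul_left (dvd_add ?_ ?_) _)
    · exact _root_.map_dvd C hz0
    · exact (_root_.map_dvd C (hz1.mul_right _)).mul_right _
  have h2 : ¬ C Φ ∣ ((X : ℚ[X][X]) - 1) := by
    intro h
    rw [C_dvd_iff_dvd_coeff] at h
    have := h 1
    simp only [coeff_sub, coeff_X_one, coeff_one] at this
    norm_num at this
    exact hΦ.not_isUnit (isUnit_of_dvd_one this)
  have h3 : C Φ ∣ G := by
    rcases hp.dvd_or_dvd h1 with h | h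
    · exact absurd (hp.dvd_of_dvd_pow h) h2
    · exact h
  obtain ⟨G', rfl⟩ := h3
  have h1 : Φ ^ 4 ∣ (X ^ n) ^ ((L.map fun x => x.2).sum * M) * ((Zp N d e M).coeff 0 +
        (Zp N d e M).coeff 1 * C ((sq L : ℚ) / 2) * (X ^ n - 1) ^ 2) := by
    rw [hG, dvd_neg, eval_mul, eval_C, ← mul_assoc, pow_succ Φ 3]
    exact (mul_dvd_mul (pow_dvd_pow_of_dvd hn 3) (dvd_refl Φ)).mul_right _
  exact (IsCoprime.pow (hX.pow_right (n := n))).dvd_of_dvd_mul_left h1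

lemma anti_aux {Q : Type*} [CommRing Q] (f : ℚ[X][X] →+* Q) (d t M : ℕ) (hd : d = 2 * t + 1)
    (ht : 1 ≤ t) (hq : (f (C X)) ^ (d * M + 1) = 1)
    (h2 : ∀ ρ : ℕ, 2 * ρ = d * M + 1 → Odd M → (f (C X)) ^ ρ = -1) :
    (∀ L : List (ℕ × ℕ), L.length = 2 * t → f (WY L d (d * (t - 1)) M) = 0) ∧
      f (Zp (2 * t - 2) d (d * (t - 1)) M) = 0 := by
  set u : Qˣ := Units.ofPowEqOne (f (C X)) (d * M + 1) hq (by omega) with hu
  have huv : (u : Q) = f (C X) := rfl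
  have hu1 : u ^ (d * M + 1) = 1 := by
    ext1
    rw [Units.val_pow_eq_pow_val, huv, hq, Units.val_one]
  have hu2 : ∀ ρ : ℕ, 2 * ρ = d * M + 1 → Odd M → u ^ ρ = -1 := by
    intro ρ hρ hM
    ext1
    rw [Units.val_pow_eq_pow_val, huv, Units.val_neg, Units.val_one]
    exact h2 ρ hρ hM
  have hh2 : 2 * f (C (C (1 / 2))) = 1 := by
    rw [← map_ofNat f 2, ← map_mul, ← map_one f]
    congr 1
    have : (2 : ℚ[X][X]) = C (C 2) := rfl
    rw [this, ← C_mul, ← C_mul]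
    norm_num
  constructor
  · intro L hL
    unfold WY
    rw [map_W f d (d * (t - 1)) M (C X) (numF X L) (denF X L) (numF (f X) L) (denF (f X) L)
      (fun c => map_numF f X L c) (fun c => map_denF f X L c), ← huv]
    exact W_anti u _ hh2 d t M hd ht hu1 hu2 _ _ (fun c c' hcc => numF_anti _ L t hL c c' hcc)
  · unfold Zp
    rw [map_W f d (d * (t - 1)) M (C X) (nuK (2 * t - 2) X) (nuK (2 * t - 2) X)
      (nuK (2 * t - 2) (f X)) (nuK (2 * t - 2) (f X))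
      (fun c => map_nuK f _ _ c) (fun c => map_nuK f _ _ c), ← huv]
    exact W_anti u _ hh2 d t M hd ht hu1 hu2 _ _ (fun c c' hcc => nuK_anti _ t ht c c' hcc)

/-- Both the deformed sum and its two-term model are divisible by `Φ` in the antisymmetric case. -/
lemma anti_dvd (Φ : ℚ[X]) (d t M : ℕ) (hd : d = 2 * t + 1) (ht : 1 ≤ t)
    (h1 : Φ ∣ X ^ (d * M + 1) - 1)
    (h2 : ∀ ρ : ℕ, 2 * ρ = d * M + 1 → Odd M → Φ ∣ X ^ ρ + 1) :
    (∀ L : List (ℕ × ℕ), L.length = 2 * t → C Φ ∣ WY L d (d * (t - 1)) M) ∧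
      C Φ ∣ Zp (2 * t - 2) d (d * (t - 1)) M := by
  have e : ∀ P : ℚ[X], (mapRingHom (Ideal.Quotient.mk (Ideal.span {Φ}))) (C P) =
      C (Ideal.Quotient.mk (Ideal.span {Φ}) P) := by
    intro P
    rw [coe_mapRingHom, map_C]
  have h := anti_aux (Q := (ℚ[X] ⧸ Ideal.span {Φ})[X])
    (mapRingHom (Ideal.Quotient.mk (Ideal.span {Φ}))) d t M hd ht (by
      rw [e, ← C_pow, ← map_pow]
      have : (Ideal.Quotient.mk (Ideal.span {Φ})) (X ^ (d * M + 1)) = 1 := by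
        rw [← map_one (Ideal.Quotient.mk (Ideal.span {Φ})), Ideal.Quotient.eq,
          Ideal.mem_span_singleton]
        exact h1
      rw [this, C_1]) (by
      intro ρ hρ hM
      rw [e, ← C_pow, ← map_pow]
      have : (Ideal.Quotient.mk (Ideal.span {Φ})) (X ^ ρ) = -1 := by
        have h3 : (Ideal.Quotient.mk (Ideal.span {Φ})) (X ^ ρ) =
            (Ideal.Quotient.mk (Ideal.span {Φ})) (-1) := by
          rw [Ideal.Quotient.eq, Ideal.mem_span_singleton, sub_neg_eq_add]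
          exact h2 ρ hρ hM
        rw [h3, map_neg, map_one]
      rw [this, C_neg, C_1])
  exact ⟨fun L hL => C_dvd_of_map Φ _ (h.1 L hL), C_dvd_of_map Φ _ h.2⟩

end Pool.Agent.T9h94.QS
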