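import Mathlib

set_option autoImplicit false

/-!
# The truncated sums and congruences modulo powers of cyclotomic polynomials
-/

namespace Pool.Agent.T9h94.QS

open Finset Polynomial

/-- The `q`-integer `[m] = (1 - q^m) / (1 - q)` in the field `ℚ(q)`. -/
noncomputable def qInt (m : ℕ) : RatFunc ℚ := (1 - RatFunc.X ^ m) / (1 - RatFunc.X)

/-- The shifted factorial `(a;p)_k = ∏_{j < k} (1 - a p^j)` in the field `ℚ(q)`. -/
noncomputable def poch (a p : RatFunc ℚ) (k : ℕ) : RatFunc ℚ := ∏ j ∈ range k, (1 - a * p ^ j)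

/-- `S_d(n) = ∑_{k=0}^{n-1} [2dk+1] ((q;q^d)_k / (q^d;q^d)_k)^d q^(d(d-3)k/2)`. -/
noncomputable def S (d n : ℕ) : RatFunc ℚ :=
  ∑ k ∈ range n, qInt (2 * d * k + 1) *
    (poch RatFunc.X (RatFunc.X ^ d) k / poch (RatFunc.X ^ d) (RatFunc.X ^ d) k) ^ d *
    RatFunc.X ^ (d * (d - 3) / 2 * k)

/-- An integer polynomial as an element of `ℚ(q)`. -/
noncomputable def toR : ℤ[X] →+* RatFunc ℚ :=
  (algebraMap ℚ[X] (RatFunc ℚ)).comp (mapRingHom (Int.castRingHom ℚ))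

/-- `R ≡ 0 (mod Φ_n(q)^j)`: `R = Φ_n(q)^j A(q) / B(q)` with `A, B ∈ ℤ[q]` and `Φ_n ∤ B`. -/
def CongZero (n j : ℕ) (R : RatFunc ℚ) : Prop :=
  ∃ A B : ℤ[X], ¬ cyclotomic n ℤ ∣ B ∧ R = toR (cyclotomic n ℤ) ^ j * toR A / toR B

end Pool.Agent.T9h94.QS
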