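import Pool.Agent.T9h94.QS.Anti

set_option autoImplicit false

/-!
# The expansion in the formal variable and its consequences
-/

namespace Pool.Agent.T9h94.QS

open Finset Polynomial

section nat

variable {C C' : Type*} [CommRing C] [CommRing C']

lemma map_W (f : C →+* C') (d e M : ℕ) (q : C) (ν δ : C → C) (ν' δ' : C' → C')
    (hν : ∀ c, f (ν c) = ν' (f c)) (hδ : ∀ c, f (δ c) = δ' (f c)) :
    f (W d e M q ν δ) = W d e M (f q) ν' δ' := by
  unfold W
  simp only [map_sum, map_mul, map_sub, map_one, map_pow, map_prod, hν, hδ]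

lemma map_numF (f : C →+* C') (Y : C) (L : List (ℕ × ℕ)) (c : C) :
    f (numF Y L c) = numF (f Y) L (f c) := by
  unfold numF
  rw [map_list_prod, List.map_map]
  congr 2
  funext x
  simp

lemma map_denF (f : C →+* C') (Y : C) (L : List (ℕ × ℕ)) (c : C) :
    f (denF Y L c) = denF (f Y) L (f c) := by
  unfold denF
  rw [map_list_prod, List.map_map]
  congr 2
  funext x
  simp

lemma map_nuK (f : C →+* C') (N : ℕ) (κ c : C) : f (nuK N κ c) = nuK N (f κ) (f c) := by
  unfold nuK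
  simp

lemma eval₂_sq_zero (f : C →+* C') (κ : C') (hκ : κ ^ 2 = 0) (P : C[X]) :
    P.eval₂ f κ = f (P.coeff 0) + f (P.coeff 1) * κ := by
  have h1 := Polynomial.divX_mul_X_add P
  have h2 := Polynomial.divX_mul_X_add P.divX
  have h3 : P.divX.coeff 0 = P.coeff 1 := by simp [Polynomial.coeff_divX]
  rw [h3] at h2
  have h4 : P = (P.divX.divX * X + Polynomial.C (P.coeff 1)) * X + Polynomial.C (P.coeff 0) := by
    rw [h2, h1]
  conv_lhs => rw [h4]
  rw [eval₂_add, eval₂_mul, eval₂_add, eval₂_mul, eval₂_X, eval₂_C, eval₂_C]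
  linear_combination (eval₂ f κ P.divX.divX) * hκ

end nat

/-- The polynomial in `κ`. -/
noncomputable def Zp (N d e M : ℕ) : ℚ[X][X] := W d e M (C X : ℚ[X][X]) (nuK N X) (nuK N X)

/-- The deformed sum as a polynomial in the formal variable `Y`. -/
noncomputable def WY (L : List (ℕ × ℕ)) (d e M : ℕ) : ℚ[X][X] :=
  W d e M (C X : ℚ[X][X]) (numF X L) (denF X L)

lemma expansion_aux {Q : Type*} [CommRing Q] (mk : ℚ[X][X] →+* Q) (hmk : mk ((X - 1) ^ 3) = 0)
    (L : List (ℕ × ℕ)) (N : ℕ) (hL : L.length = N + 2) (h0 : (dif L).sum = 0)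
    (d e M : ℕ) : mk (WY L d e M) =
      mk (X ^ ((L.map fun x => x.2).sum * M) * (C ((Zp N d e M).coeff 0) +
        C ((Zp N d e M).coeff 1 * C ((sq L : ℚ) / 2)) * (X - 1) ^ 2)) := by
  set ε : Q := mk (X - 1) with hε
  have hε3 : ε ^ 3 = 0 := by
    rw [hε, ← map_pow, hmk]
  set h : Q := mk (C (C (1 / 2))) with hh
  have hh2 : 2 * h = 1 := by
    rw [hh, ← map_ofNat mk 2, ← map_mul, ← map_one mk]
    congr 1
    have : (2 : ℚ[X][X]) = C (C 2) := rfl
    rw [this, ← C_mul, ← C_mul]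
    norm_num
  set s : Q := ε - h * ε ^ 2 with hs
  have hs2 : s ^ 2 = ε ^ 2 := by
    rw [hs]
    linear_combination (-2 * h + h ^ 2 * ε) * hε3
  have hs3 : s ^ 3 = 0 := by
    rw [pow_succ, hs2, hs]
    linear_combination (1 - h * ε) * hε3
  have hY : mk X = Ex h s 1 := by
    unfold Ex
    rw [hs2, hs]
    have : mk X = 1 + ε := by rw [hε, map_sub, map_one]; ring
    rw [this]
    push_cast
    ring
  have hW : mk (WY L d e M) = W d e M (mk (C X)) (numF (mk X) L) (denF (mk X) L) := by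
    unfold WY
    exact map_W mk d e M (C X) (numF X L) (denF X L) (numF (mk X) L) (denF (mk X) L)
      (fun c => map_numF mk X L c) (fun c => map_denF mk X L c)
  have hT := W_taylor h s (mk X) hh2 hs3 hY L N hL h0 d e M (mk (C X))
  rw [← hW] at hT
  set κ : Q := (sq L : Q) * h * s ^ 2 with hκ
  have hκ2 : κ ^ 2 = 0 := by
    rw [hκ, hs2]
    linear_combination ((sq L : Q) ^ 2 * h ^ 2 * ε) * hε3
  have hZ : W d e M (mk (C X)) (nuK N κ) (nuK N κ) = (Zp N d e M).eval₂ (mk.comp C) κ := by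
    have h1 : (Zp N d e M).eval₂ (mk.comp C) κ = (eval₂RingHom (mk.comp C) κ) (Zp N d e M) := rfl
    have hν : ∀ c, (eval₂RingHom (mk.comp C) κ) (nuK N X c) =
        nuK N κ ((eval₂RingHom (mk.comp C) κ) c) := by
      intro c
      have := map_nuK (eval₂RingHom (mk.comp C) κ) N X c
      rw [this]
      simp
    rw [h1]
    unfold Zp
    rw [map_W (eval₂RingHom (mk.comp C) κ) d e M (C X) (nuK N X) (nuK N X) (nuK N κ) (nuK N κ)
      hν hν]
    simp
  rw [hZ, eval₂_sq_zero _ κ hκ2] at hT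
  rw [hT, map_mul, map_pow, map_add, map_mul, map_pow, ← hε]
  have e1 : mk (C ((Zp N d e M).coeff 1 * C ((sq L : ℚ) / 2))) =
      mk (C ((Zp N d e M).coeff 1)) * ((sq L : Q) * h) := by
    rw [C_mul, map_mul]
    congr 1
    rw [hh, ← map_intCast mk, ← map_mul]
    congr 1
    have : ((sq L : ℤ) : ℚ[X][X]) = C (C ((sq L : ℤ) : ℚ)) := by simp
    rw [this, ← C_mul, ← C_mul]
    congr 2
    ring
  rw [e1, hκ, hs2]
  simp only [RingHom.comp_apply]
  ring

theorem expansion (L : List (ℕ × ℕ)) (N : ℕ) (hL : L.length = N + 2) (h0 : (dif L).sum = 0)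
    (d e M : ℕ) : ∃ G : ℚ[X][X], WY L d e M =
      X ^ ((L.map fun x => x.2).sum * M) * (C ((Zp N d e M).coeff 0) +
        C ((Zp N d e M).coeff 1 * C ((sq L : ℚ) / 2)) * (X - 1) ^ 2) + (X - 1) ^ 3 * G := by
  have hm : (Ideal.Quotient.mk (Ideal.span {((X : ℚ[X][X]) - 1) ^ 3})) ((X - 1) ^ 3) = 0 := by
    rw [Ideal.Quotient.eq_zero_iff_mem]
    exact Ideal.mem_span_singleton_self _
  have h := expansion_aux (Q := ℚ[X][X] ⧸ Ideal.span {((X : ℚ[X][X]) - 1) ^ 3})
    (Ideal.Quotient.mk (Ideal.span {((X : ℚ[X][X]) - 1) ^ 3})) hm L N hL h0 d e M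
  rw [Ideal.Quotient.eq, Ideal.mem_span_singleton] at h
  obtain ⟨G, hG⟩ := h
  exact ⟨G, by rw [← hG]; ring⟩

end Pool.Agent.T9h94.QS
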