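import Pool.Agent.T9h94.QS.Concl

set_option autoImplicit false

/-!
# The families on which the deformed sums vanish
-/

namespace Pool.Agent.T9h94.QS

open Finset Polynomial

lemma good_X : Good (algebraMap ℚ[X] (RatFunc ℚ) X) := by
  have hinj : Function.Injective (algebraMap ℚ[X] (RatFunc ℚ)) := RatFunc.algebraMap_injective ℚ
  have h0 : algebraMap ℚ[X] (RatFunc ℚ) X ≠ 0 := by
    rw [Ne, map_eq_zero_iff _ hinj]
    exact X_ne_zero
  have hpos : ∀ m : ℕ, m ≠ 0 → (algebraMap ℚ[X] (RatFunc ℚ) X) ^ m ≠ 1 := by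
    intro m hm h
    rw [← map_pow, ← map_one (algebraMap ℚ[X] (RatFunc ℚ))] at h
    have h2 := congrArg Polynomial.natDegree (hinj h)
    rw [natDegree_X_pow, natDegree_one] at h2
    exact hm h2
  refine ⟨h0, fun z hz h => ?_⟩
  rw [sub_eq_zero] at h
  rcases Int.natAbs_eq z with hz1 | hz1
  · rw [hz1, zpow_natCast] at h
    exact hpos _ (by simpa using hz) h.symm
  · rw [hz1, zpow_neg, zpow_natCast] at h
    have : (algebraMap ℚ[X] (RatFunc ℚ) X) ^ z.natAbs = 1 := by
      rw [← inv_inv ((algebraMap ℚ[X] (RatFunc ℚ) X) ^ z.natAbs), ← h, inv_one]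
    exact hpos _ (by simpa using hz) this

lemma WY_eval (L : List (ℕ × ℕ)) (d e M n : ℕ) :
    (WY L d e M).eval (X ^ n) = W d e M (X : ℚ[X]) (numF (X ^ n) L) (denF (X ^ n) L) := by
  have h1 : (WY L d e M).eval (X ^ n) = evalRingHom (X ^ n) (WY L d e M) := rfl
  rw [h1]
  unfold WY
  rw [map_W (evalRingHom ((X : ℚ[X]) ^ n)) d e M (C X) (numF X L) (denF X L)
    (numF (X ^ n) L) (denF (X ^ n) L)]
  · simp
  · intro c
    rw [map_numF]
    simp
  · intro c
    rw [map_denF]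
    simp

lemma WY_eval_zero (L : List (ℕ × ℕ)) (d e M n : ℕ)
    (h : W d e M (algebraMap ℚ[X] (RatFunc ℚ) X) (numF ((algebraMap ℚ[X] (RatFunc ℚ) X) ^ n) L)
      (denF ((algebraMap ℚ[X] (RatFunc ℚ) X) ^ n) L) = 0) :
    (WY L d e M).eval (X ^ n) = 0 := by
  rw [WY_eval]
  apply RatFunc.algebraMap_injective ℚ
  rw [map_zero, map_W (algebraMap ℚ[X] (RatFunc ℚ)) d e M X (numF (X ^ n) L) (denF (X ^ n) L)
    (numF ((algebraMap ℚ[X] (RatFunc ℚ) X) ^ n) L) (denF ((algebraMap ℚ[X] (RatFunc ℚ) X) ^ n) L)]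
  · exact h
  · intro c
    rw [map_numF, map_pow]
  · intro c
    rw [map_denF, map_pow]

lemma ne_of_coprime (d n : ℕ) (hdn : Nat.Coprime n d) (r : ℤ) (hr : |r| < d) (hd : 0 < d) (j : ℕ) :
    (d : ℤ) * (j + 1) - n * r ≠ 0 := by
  intro h
  have h1 : (d : ℤ) ∣ n * r := ⟨j + 1, by linarith⟩
  have h2 : (d : ℤ) ∣ r := by
    have : IsCoprime (d : ℤ) (n : ℤ) := Nat.isCoprime_iff_coprime.2 hdn.symm
    exact this.dvd_of_dvd_mul_left h1
  have h3 : r = 0 := Int.eq_zero_of_abs_lt_dvd h2 hr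
  rw [h3] at h
  have : (0 : ℤ) < d * (j + 1) := by positivity
  linarith

section Q1

variable (t m : ℕ)

/-- First family, first list. -/
def LA : List (ℕ × ℕ) := (t + 1, 0) :: (List.replicate (t - 1) (1, 0) ++ List.replicate (t - 1) (0, 0))

/-- First family, second list. -/
def LA' : List (ℕ × ℕ) :=
  (t + 1, 0) :: (2, 0) :: (0, 1) :: (List.replicate (t - 2) (1, 0) ++ List.replicate (t - 2) (0, 0))

/-- Second family, first list. -/
def LB : List (ℕ × ℕ) := List.replicate (2 * t - 1) (1, 0)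

/-- Second family, second list. -/
def LB' : List (ℕ × ℕ) := (2, 0) :: (0, 0) :: List.replicate (2 * t - 3) (1, 0)

end Q1

lemma mem_rep {α : Type*} {a b : α} {n : ℕ} (h : a ∈ List.replicate n b) : a = b :=
  List.eq_of_mem_replicate h

theorem vanish_A {q : RatFunc ℚ} (hq : Good q) (t m n : ℕ) (ht : 2 ≤ t) (hm : 1 ≤ m)
    (hn : n + 1 = (2 * t + 1) * m) :
    W (2 * t + 1) ((2 * t + 1) * (t - 1)) (2 * t * m - 1) q (numF (q ^ n) ((0, 2 * t) :: LA t))
      (denF (q ^ n) ((0, 2 * t) :: LA t)) = 0 := by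
  obtain ⟨t, rfl⟩ : ∃ s, t = s + 2 := ⟨t - 2, by omega⟩
  obtain ⟨m, rfl⟩ : ∃ s, m = s + 1 := ⟨m - 1, by omega⟩
  have hcop : Nat.Coprime n (2 * (t + 2) + 1) := by
    have : Nat.Coprime n (n + 1) := by simp
    rw [hn] at this
    exact Nat.Coprime.coprime_mul_right_right this
  have hd0 : 0 < 2 * (t + 2) + 1 := by omega
  have hne : ∀ r : ℤ, |r| < ((2 * (t + 2) + 1 : ℕ) : ℤ) → ∀ j : ℕ,
      ((2 * (t + 2) + 1 : ℕ) : ℤ) * (j + 1) - n * r ≠ 0 :=
    fun r hr j => ne_of_coprime _ n hcop r hr hd0 j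
  have hn' : (n : ℤ) + 1 = (2 * (t + 2) + 1) * (m + 1) := by exact_mod_cast hn
  refine W_vanish hq (2 * (t + 2) + 1) n (2 * (t + 2)) (2 * (t + 2) * (m + 1) - 1) (t + 2)
    (((m + 1) * (t + 3) - 1) + (t + 1) * m) rfl (by omega) ?_ (LA (t + 2)) ?_ ?_ ?_ ?_
  · have e : 2 * (t + 2) * (m + 1) - 1 + 1 = 2 * (t + 2) * (m + 1) := by
      have : 0 < 2 * (t + 2) * (m + 1) := by positivity
      omega
    zify at e hn ⊢
    have e' : ((2 * (t + 2) * (m + 1) - 1 : ℕ) : ℤ) = 2 * (t + 2) * (m + 1) - 1 := by linarith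
    rw [e']
    have : (n : ℤ) = (2 * (t + 2) + 1) * (m + 1) - 1 := by linarith
    rw [this]
    ring
  · have h1 : Nice q (q ^ (2 * (t + 2) + 1)) ((m + 1) * (t + 3) - 1)
        (fun k => gr q (2 * (t + 2) + 1) n ((t : ℤ) + 3) k) := by
      refine gr_single hq _ n _ _ ?_ (hne _ ?_)
      · have e : (m + 1) * (t + 3) - 1 + 1 = (m + 1) * (t + 3) := by
          have : 0 < (m + 1) * (t + 3) := by positivity
          omega
        zify at e
        have e' : (((m + 1) * (t + 3) - 1 : ℕ) : ℤ) = (m + 1) * (t + 3) - 1 := by linarith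
        rw [e']
        have : (n : ℤ) = (2 * (t + 2) + 1) * (m + 1) - 1 := by linarith
        rw [this]
        push_cast
        ring
      · rw [abs_lt]
        push_cast
        constructor <;> linarith
    have h2 : Nice q (q ^ (2 * (t + 2) + 1)) m
        (fun k => gr q (2 * (t + 2) + 1) n 1 k * gr q (2 * (t + 2) + 1) n 0 k) := by
      refine gr_pair hq _ n m 1 0 ?_ (hne 1 ?_) (hne 0 ?_)
      · push_cast; linarith
      · rw [abs_one]; push_cast; linarith
      · rw [abs_zero]; push_cast; linarith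
    have h3 := h1.mul (h2.pow (t + 1))
    have e : (fun k => ((LA (t + 2)).map fun x => gr q (2 * (t + 2) + 1) n ((x.1 : ℤ) - x.2) k).prod)
        = fun k => gr q (2 * (t + 2) + 1) n ((t : ℤ) + 3) k *
          (gr q (2 * (t + 2) + 1) n 1 k * gr q (2 * (t + 2) + 1) n 0 k) ^ (t + 1) := by
      funext k
      unfold LA
      rw [List.map_cons, List.prod_cons, List.map_append, List.prod_append, List.map_replicate,
        List.map_replicate, List.prod_replicate, List.prod_replicate, mul_pow]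
      have e1 : t + 2 - 1 = t + 1 := by omega
      rw [e1]
      congr 2
    rw [e]
    exact h3
  · have : 0 < (m + 1) * (t + 3) := by positivity
    have h2 : 0 < 2 * (t + 2) * (m + 1) := by positivity
    zify [this, h2]
    have e1 : (((m + 1) * (t + 3) - 1 : ℕ) : ℤ) = (m + 1) * (t + 3) - 1 := by
      rw [Nat.cast_sub (by omega)]; push_cast; ring
    have e2 : ((2 * (t + 2) * (m + 1) - 1 : ℕ) : ℤ) = 2 * (t + 2) * (m + 1) - 1 := by
      rw [Nat.cast_sub (by omega)]; push_cast; ring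
    have e3 : ((t + 2 - 1 : ℕ) : ℤ) = t + 1 := by omega
    rw [e3]
    ring
  · unfold LA
    simp
    ring
  · intro x hx j
    unfold LA at hx
    rw [List.mem_cons, List.mem_append] at hx
    rcases hx with rfl | hx | hx
    · apply hne
      rw [abs_lt]
      push_cast
      constructor <;> linarith
    · rw [mem_rep hx]
      apply hne
      norm_num
      linarith
    · rw [mem_rep hx]
      apply hne
      norm_num
      linarith

theorem vanish_A' {q : RatFunc ℚ} (hq : Good q) (t m n : ℕ) (ht : 2 ≤ t) (hm : 1 ≤ m)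
    (hn : n + 1 = (2 * t + 1) * m) :
    W (2 * t + 1) ((2 * t + 1) * (t - 1)) (2 * t * m - 1) q (numF (q ^ n) ((0, 2 * t) :: LA' t))
      (denF (q ^ n) ((0, 2 * t) :: LA' t)) = 0 := by
  obtain ⟨t, rfl⟩ : ∃ s, t = s + 2 := ⟨t - 2, by omega⟩
  obtain ⟨m, rfl⟩ : ∃ s, m = s + 1 := ⟨m - 1, by omega⟩
  have hcop : Nat.Coprime n (2 * (t + 2) + 1) := by
    have : Nat.Coprime n (n + 1) := by simp
    rw [hn] at this
    exact Nat.Coprime.coprime_mul_right_right this
  have hd0 : 0 < 2 * (t + 2) + 1 := by omega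
  have hne : ∀ r : ℤ, |r| < ((2 * (t + 2) + 1 : ℕ) : ℤ) → ∀ j : ℕ,
      ((2 * (t + 2) + 1 : ℕ) : ℤ) * (j + 1) - n * r ≠ 0 :=
    fun r hr j => ne_of_coprime _ n hcop r hr hd0 j
  have hn' : (n : ℤ) + 1 = (2 * (t + 2) + 1) * (m + 1) := by exact_mod_cast hn
  refine W_vanish hq (2 * (t + 2) + 1) n (2 * (t + 2)) (2 * (t + 2) * (m + 1) - 1) (t + 2)
    (((m + 1) * (t + 3) - 1) + (t + 1) * m) rfl (by omega) ?_ (LA' (t + 2)) ?_ ?_ ?_ ?_
  · have e : 2 * (t + 2) * (m + 1) - 1 + 1 = 2 * (t + 2) * (m + 1) := by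
      have : 0 < 2 * (t + 2) * (m + 1) := by positivity
      omega
    zify at e hn ⊢
    have e' : ((2 * (t + 2) * (m + 1) - 1 : ℕ) : ℤ) = 2 * (t + 2) * (m + 1) - 1 := by linarith
    rw [e']
    have : (n : ℤ) = (2 * (t + 2) + 1) * (m + 1) - 1 := by linarith
    rw [this]
    ring
  · have h1 : Nice q (q ^ (2 * (t + 2) + 1)) ((m + 1) * (t + 3) - 1)
        (fun k => gr q (2 * (t + 2) + 1) n ((t : ℤ) + 3) k) := by
      refine gr_single hq _ n _ _ ?_ (hne _ ?_)
      · have e : (m + 1) * (t + 3) - 1 + 1 = (m + 1) * (t + 3) := by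
          have : 0 < (m + 1) * (t + 3) := by positivity
          omega
        zify at e
        have e' : (((m + 1) * (t + 3) - 1 : ℕ) : ℤ) = (m + 1) * (t + 3) - 1 := by linarith
        rw [e']
        have : (n : ℤ) = (2 * (t + 2) + 1) * (m + 1) - 1 := by linarith
        rw [this]
        push_cast
        ring
      · rw [abs_lt]
        push_cast
        constructor <;> linarith
    have h2 : Nice q (q ^ (2 * (t + 2) + 1)) m
        (fun k => gr q (2 * (t + 2) + 1) n 1 k * gr q (2 * (t + 2) + 1) n 0 k) := by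
      refine gr_pair hq _ n m 1 0 ?_ (hne 1 ?_) (hne 0 ?_)
      · push_cast; linarith
      · rw [abs_one]; push_cast; linarith
      · rw [abs_zero]; push_cast; linarith
    have h2' : Nice q (q ^ (2 * (t + 2) + 1)) m
        (fun k => gr q (2 * (t + 2) + 1) n 2 k * gr q (2 * (t + 2) + 1) n (-1) k) := by
      refine gr_pair hq _ n m 2 (-1) ?_ (hne 2 ?_) (hne (-1) ?_)
      · push_cast; linarith
      · rw [abs_of_pos (by norm_num)]; push_cast; linarith
      · rw [abs_neg, abs_one]; push_cast; linarith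
    have h3 := (h1.mul h2').mul (h2.pow t)
    have eE : (m + 1) * (t + 3) - 1 + m + t * m = (m + 1) * (t + 3) - 1 + (t + 1) * m := by ring
    rw [eE] at h3
    have e : (fun k => ((LA' (t + 2)).map fun x => gr q (2 * (t + 2) + 1) n ((x.1 : ℤ) - x.2) k).prod)
        = fun k => gr q (2 * (t + 2) + 1) n ((t : ℤ) + 3) k *
          (gr q (2 * (t + 2) + 1) n 2 k * gr q (2 * (t + 2) + 1) n (-1) k) *
          (gr q (2 * (t + 2) + 1) n 1 k * gr q (2 * (t + 2) + 1) n 0 k) ^ t := by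
      funext k
      unfold LA'
      rw [List.map_cons, List.prod_cons, List.map_cons, List.prod_cons, List.map_cons,
        List.prod_cons, List.map_append, List.prod_append, List.map_replicate,
        List.map_replicate, List.prod_replicate, List.prod_replicate, mul_pow]
      have e1 : t + 2 - 2 = t := by omega
      have e2 : (((t + 2 + 1, 0) : ℕ × ℕ).1 : ℤ) - (((t + 2 + 1, 0) : ℕ × ℕ).2 : ℕ) = (t : ℤ) + 3 := by
        push_cast; ring
      have e3 : (((2, 0) : ℕ × ℕ).1 : ℤ) - (((2, 0) : ℕ × ℕ).2 : ℕ) = 2 := by norm_num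
      have e4 : (((0, 1) : ℕ × ℕ).1 : ℤ) - (((0, 1) : ℕ × ℕ).2 : ℕ) = -1 := by norm_num
      have e5 : (((1, 0) : ℕ × ℕ).1 : ℤ) - (((1, 0) : ℕ × ℕ).2 : ℕ) = 1 := by norm_num
      have e6 : (((0, 0) : ℕ × ℕ).1 : ℤ) - (((0, 0) : ℕ × ℕ).2 : ℕ) = 0 := by norm_num
      rw [e1, e2, e3, e4, e5, e6]
      ring
    rw [e]
    exact h3
  · have : 0 < (m + 1) * (t + 3) := by positivity
    have h2 : 0 < 2 * (t + 2) * (m + 1) := by positivity
    zify [this, h2]
    have e1 : (((m + 1) * (t + 3) - 1 : ℕ) : ℤ) = (m + 1) * (t + 3) - 1 := by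
      rw [Nat.cast_sub (by omega)]; push_cast; ring
    have e2 : ((2 * (t + 2) * (m + 1) - 1 : ℕ) : ℤ) = 2 * (t + 2) * (m + 1) - 1 := by
      rw [Nat.cast_sub (by omega)]; push_cast; ring
    have e3 : ((t + 2 - 1 : ℕ) : ℤ) = t + 1 := by omega
    rw [e3]
    ring
  · unfold LA'
    simp
    ring
  · intro x hx j
    unfold LA' at hx
    rw [List.mem_cons, List.mem_cons, List.mem_cons, List.mem_append] at hx
    rcases hx with rfl | rfl | rfl | hx | hx
    · apply hne
      rw [abs_lt]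
      push_cast
      constructor <;> linarith
    · apply hne
      rw [abs_lt]
      push_cast
      constructor <;> linarith
    · apply hne
      rw [abs_lt]
      push_cast
      constructor <;> linarith
    · rw [mem_rep hx]
      apply hne
      norm_num
      linarith
    · rw [mem_rep hx]
      apply hne
      norm_num
      linarith

theorem vanish_B {q : RatFunc ℚ} (hq : Good q) (t h n : ℕ) (ht : 2 ≤ t)
    (hn : 2 * n + 1 = (2 * t + 1) * (2 * h + 1)) :
    W (2 * t + 1) ((2 * t + 1) * (t - 1)) ((2 * t - 1) * h + t - 1) q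
      (numF (q ^ n) ((0, 2 * t - 1) :: LB t)) (denF (q ^ n) ((0, 2 * t - 1) :: LB t)) = 0 := by
  obtain ⟨t, rfl⟩ : ∃ s, t = s + 2 := ⟨t - 2, by omega⟩
  have hcop : Nat.Coprime n (2 * (t + 2) + 1) := by
    have : Nat.Coprime n (2 * n + 1) := by simp
    rw [hn] at this
    exact Nat.Coprime.coprime_mul_right_right this
  have hd0 : 0 < 2 * (t + 2) + 1 := by omega
  have hne : ∀ r : ℤ, |r| < ((2 * (t + 2) + 1 : ℕ) : ℤ) → ∀ j : ℕ,
      ((2 * (t + 2) + 1 : ℕ) : ℤ) * (j + 1) - n * r ≠ 0 :=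
    fun r hr j => ne_of_coprime _ n hcop r hr hd0 j
  have hn' : 2 * (n : ℤ) + 1 = (2 * (t + 2) + 1) * (2 * h + 1) := by exact_mod_cast hn
  have eM : (2 * (t + 2) - 1) * h + (t + 2) - 1 = (2 * t + 3) * h + t + 1 := by
    have : 2 * (t + 2) - 1 = 2 * t + 3 := by omega
    rw [this]; omega
  have eS : 2 * (t + 2) - 1 = 2 * t + 3 := by omega
  rw [eM, eS]
  refine W_vanish hq (2 * (t + 2) + 1) n (2 * t + 3) ((2 * t + 3) * h + t + 1) (t + 2)
    ((2 * t + 3) * h) rfl (by omega) ?_ (LB (t + 2)) ?_ ?_ ?_ ?_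
  · zify
    nlinarith
  · have h1 : Nice q (q ^ (2 * (t + 2) + 1)) h
        (fun k => gr q (2 * (t + 2) + 1) n 1 k) := by
      refine gr_single hq _ n _ _ ?_ (hne _ ?_)
      · push_cast; linarith
      · rw [abs_one]; push_cast; linarith
    have h3 := h1.pow (2 * t + 3)
    have e : (fun k => ((LB (t + 2)).map fun x => gr q (2 * (t + 2) + 1) n ((x.1 : ℤ) - x.2) k).prod)
        = fun k => (gr q (2 * (t + 2) + 1) n 1 k) ^ (2 * t + 3) := by
      funext k
      unfold LB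
      rw [List.map_replicate, List.prod_replicate]
      have e5 : (((1, 0) : ℕ × ℕ).1 : ℤ) - (((1, 0) : ℕ × ℕ).2 : ℕ) = 1 := by norm_num
      rw [e5, eS]
    rw [e]
    exact h3
  · omega
  · unfold LB
    simp
    ring
  · intro x hx j
    unfold LB at hx
    rw [mem_rep hx]
    apply hne
    norm_num
    linarith

theorem vanish_B' {q : RatFunc ℚ} (hq : Good q) (t h n : ℕ) (ht : 2 ≤ t)
    (hn : 2 * n + 1 = (2 * t + 1) * (2 * h + 1)) :
    W (2 * t + 1) ((2 * t + 1) * (t - 1)) ((2 * t - 1) * h + t - 1) q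
      (numF (q ^ n) ((0, 2 * t - 1) :: LB' t)) (denF (q ^ n) ((0, 2 * t - 1) :: LB' t)) = 0 := by
  obtain ⟨t, rfl⟩ : ∃ s, t = s + 2 := ⟨t - 2, by omega⟩
  have hcop : Nat.Coprime n (2 * (t + 2) + 1) := by
    have : Nat.Coprime n (2 * n + 1) := by simp
    rw [hn] at this
    exact Nat.Coprime.coprime_mul_right_right this
  have hd0 : 0 < 2 * (t + 2) + 1 := by omega
  have hne : ∀ r : ℤ, |r| < ((2 * (t + 2) + 1 : ℕ) : ℤ) → ∀ j : ℕ,
      ((2 * (t + 2) + 1 : ℕ) : ℤ) * (j + 1) - n * r ≠ 0 :=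
    fun r hr j => ne_of_coprime _ n hcop r hr hd0 j
  have hn' : 2 * (n : ℤ) + 1 = (2 * (t + 2) + 1) * (2 * h + 1) := by exact_mod_cast hn
  have eM : (2 * (t + 2) - 1) * h + (t + 2) - 1 = (2 * t + 3) * h + t + 1 := by
    have : 2 * (t + 2) - 1 = 2 * t + 3 := by omega
    rw [this]; omega
  have eS : 2 * (t + 2) - 1 = 2 * t + 3 := by omega
  have eS' : 2 * (t + 2) - 3 = 2 * t + 1 := by omega
  rw [eM, eS]
  refine W_vanish hq (2 * (t + 2) + 1) n (2 * t + 3) ((2 * t + 3) * h + t + 1) (t + 2)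
    ((2 * t + 3) * h) rfl (by omega) ?_ (LB' (t + 2)) ?_ ?_ ?_ ?_
  · zify
    nlinarith
  · have h1 : Nice q (q ^ (2 * (t + 2) + 1)) h
        (fun k => gr q (2 * (t + 2) + 1) n 1 k) := by
      refine gr_single hq _ n _ _ ?_ (hne _ ?_)
      · push_cast; linarith
      · rw [abs_one]; push_cast; linarith
    have h2 : Nice q (q ^ (2 * (t + 2) + 1)) (2 * h)
        (fun k => gr q (2 * (t + 2) + 1) n 2 k * gr q (2 * (t + 2) + 1) n 0 k) := by
      refine gr_pair hq _ n (2 * h) 2 0 ?_ (hne 2 ?_) (hne 0 ?_)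
      · push_cast; linarith
      · rw [abs_of_pos (by norm_num)]; push_cast; linarith
      · rw [abs_zero]; push_cast; linarith
    have h3 := h2.mul (h1.pow (2 * t + 1))
    have eE : 2 * h + (2 * t + 1) * h = (2 * t + 3) * h := by ring
    rw [eE] at h3
    have e : (fun k => ((LB' (t + 2)).map fun x => gr q (2 * (t + 2) + 1) n ((x.1 : ℤ) - x.2) k).prod)
        = fun k => (gr q (2 * (t + 2) + 1) n 2 k * gr q (2 * (t + 2) + 1) n 0 k) *
          (gr q (2 * (t + 2) + 1) n 1 k) ^ (2 * t + 1) := by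
      funext k
      unfold LB'
      rw [List.map_cons, List.prod_cons, List.map_cons, List.prod_cons, List.map_replicate,
        List.prod_replicate]
      have e3 : (((2, 0) : ℕ × ℕ).1 : ℤ) - (((2, 0) : ℕ × ℕ).2 : ℕ) = 2 := by norm_num
      have e5 : (((1, 0) : ℕ × ℕ).1 : ℤ) - (((1, 0) : ℕ × ℕ).2 : ℕ) = 1 := by norm_num
      have e6 : (((0, 0) : ℕ × ℕ).1 : ℤ) - (((0, 0) : ℕ × ℕ).2 : ℕ) = 0 := by norm_num
      rw [e3, e5, e6, eS']
      ring
    rw [e]
    exact h3
  · omega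
  · unfold LB'
    rw [eS']
    simp
    ring
  · intro x hx j
    unfold LB' at hx
    rw [List.mem_cons, List.mem_cons] at hx
    rcases hx with rfl | rfl | hx
    · apply hne
      rw [abs_lt]
      push_cast
      constructor <;> linarith
    · apply hne
      rw [abs_lt]
      push_cast
      constructor <;> linarith
    · rw [mem_rep hx]
      apply hne
      norm_num
      linarith

end Pool.Agent.T9h94.QS
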