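import Mathlib

set_option autoImplicit false

/-!
# The divided difference kernel of a terminating very-well-poised series

For `t_k = p ^ (-k) + a p ^ k`, the weights of the `M`-th divided difference at `t_0, …, t_M` are,
up to a constant, `(1 - a p^(2k)) (a;p)_k (p^(-M);p)_k p^(Mk) / ((p;p)_k (a p^(M+1);p)_k)`.
-/

namespace Pool.Agent.T9h94.QS

open Finset Polynomial

variable {K : Type*} [Field K]

/-- The nodes `p^(-k) + a p^k`. -/
noncomputable def node (a p : K) (k : ℕ) : K := (p ^ k)⁻¹ + a * p ^ k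

/-- The weights. -/
noncomputable def wt (a p : K) (M k : ℕ) : K :=
  (1 - a * p ^ (2 * k)) * p ^ (M * k) *
    (∏ j ∈ range k, (1 - a * p ^ j) / (1 - p ^ (j + 1))) *
    ∏ j ∈ range k, (1 - (p ^ (M - j))⁻¹) / (1 - a * p ^ (M + 1 + j))

lemma node_sub (a p : K) (hp : p ≠ 0) (i j : ℕ) :
    node a p i - node a p j = ((p ^ i)⁻¹ - (p ^ j)⁻¹) * (1 - a * p ^ (i + j)) := by
  unfold node
  have h1 : p ^ i ≠ 0 := pow_ne_zero _ hp
  have h2 : p ^ j ≠ 0 := pow_ne_zero _ hp
  rw [pow_add]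
  field_simp
  ring

lemma prod_shift (a p : K) (M k : ℕ) (h : ∀ i, 1 - a * p ^ i ≠ 0) :
    (∏ j ∈ range (M + 1), (1 - a * p ^ (k + j))) *
      ∏ j ∈ range k, ((1 - a * p ^ j) / (1 - a * p ^ (M + 1 + j))) =
        ∏ j ∈ range (M + 1), (1 - a * p ^ j) := by
  induction k with
  | zero => simp
  | succ k ih =>
    rw [← ih, prod_range_succ _ k]
    have h1 : (∏ j ∈ range (M + 1), (1 - a * p ^ (k + 1 + j))) * (1 - a * p ^ k) =
        (∏ j ∈ range (M + 1), (1 - a * p ^ (k + j))) * (1 - a * p ^ (M + 1 + k)) := by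
      have e1 := prod_range_succ (fun j => (1 - a * p ^ (k + j))) (M + 1)
      have e2 := prod_range_succ' (fun j => (1 - a * p ^ (k + j))) (M + 1)
      rw [e1] at e2
      have e3 : ∀ j, k + 1 + j = k + (j + 1) := fun j => by ring
      have e4 : M + 1 + k = k + (M + 1) := by ring
      simp only [e3, e4]
      simpa using e2.symm
    have h2 := h (M + 1 + k)
    set R := ∏ x ∈ range k, (1 - a * p ^ x) / (1 - a * p ^ (M + 1 + x)) with hR
    set A := ∏ j ∈ range (M + 1), (1 - a * p ^ (k + 1 + j))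
    set B := ∏ j ∈ range (M + 1), (1 - a * p ^ (k + j))
    have h3 : A * (R * ((1 - a * p ^ k) / (1 - a * p ^ (M + 1 + k)))) =
        (A * (1 - a * p ^ k)) * R / (1 - a * p ^ (M + 1 + k)) := by ring
    rw [h3, h1]
    rw [div_eq_iff h2]
    ring

lemma prod_pinv (p : K) (hp : p ≠ 0) (hp1 : ∀ i, 1 - p ^ (i + 1) ≠ 0) (M k : ℕ) (hk : k ≤ M) :
    (∏ j ∈ (range (M + 1)).erase k, ((p ^ k)⁻¹ - (p ^ j)⁻¹)) *
      (p ^ (M * k) * ∏ j ∈ range k, ((1 - (p ^ (M - j))⁻¹) / (1 - p ^ (j + 1)))) =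
        ∏ i ∈ range M, (1 - (p ^ (i + 1))⁻¹) := by
  have hsplit : (range (M + 1)).erase k = range k ∪ (Ico (k + 1) (M + 1)) := by
    ext j
    simp only [mem_erase, mem_range, mem_union, mem_Ico]
    omega
  have hdisj : Disjoint (range k) (Ico (k + 1) (M + 1)) := by
    rw [Finset.disjoint_left]
    intro j h1 h2
    simp only [mem_range, mem_Ico] at h1 h2
    omega
  rw [hsplit, prod_union hdisj]
  -- first product
  have h1 : ∏ j ∈ range k, ((p ^ k)⁻¹ - (p ^ j)⁻¹) =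
      ((p ^ k)⁻¹) ^ k * ∏ j ∈ range k, (1 - p ^ (j + 1)) := by
    have hc : ((p ^ k)⁻¹) ^ k = ∏ _j ∈ range k, (p ^ k)⁻¹ := by
      rw [Finset.prod_const, Finset.card_range]
    rw [← Finset.prod_range_reflect (fun j => (1 - p ^ (j + 1))) k, hc,
      ← Finset.prod_mul_distrib]
    refine Finset.prod_congr rfl fun j hj => ?_
    rw [mem_range] at hj
    have e : k - 1 - j + 1 = k - j := by omega
    rw [e]
    have e2 : p ^ k = p ^ (k - j) * p ^ j := by
      rw [← pow_add]; congr 1; omega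
    have n1 : p ^ j ≠ 0 := pow_ne_zero _ hp
    have n2 : p ^ (k - j) ≠ 0 := pow_ne_zero _ hp
    rw [e2]
    field_simp
  have h2 : ∏ j ∈ Ico (k + 1) (M + 1), ((p ^ k)⁻¹ - (p ^ j)⁻¹) =
      ((p ^ k)⁻¹) ^ (M - k) * ∏ i ∈ range (M - k), (1 - (p ^ (i + 1))⁻¹) := by
    rw [Finset.prod_Ico_eq_prod_range]
    have e : M + 1 - (k + 1) = M - k := by omega
    rw [e]
    have hc : ((p ^ k)⁻¹) ^ (M - k) = ∏ _j ∈ range (M - k), (p ^ k)⁻¹ := by
      rw [Finset.prod_const, Finset.card_range]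
    rw [hc, ← Finset.prod_mul_distrib]
    refine Finset.prod_congr rfl fun i _ => ?_
    have e2 : p ^ (k + 1 + i) = p ^ k * p ^ (i + 1) := by
      rw [← pow_add]; congr 1; ring
    rw [e2, mul_inv]
    ring
  have h3 : (∏ i ∈ range (M - k), (1 - (p ^ (i + 1))⁻¹)) *
      ∏ j ∈ range k, (1 - (p ^ (M - j))⁻¹) = ∏ i ∈ range M, (1 - (p ^ (i + 1))⁻¹) := by
    have e : M = (M - k) + k := by omega
    nth_rewrite 3 [e]
    rw [prod_range_add]
    congr 1
    rw [← Finset.prod_range_reflect (fun j => (1 - (p ^ (M - j))⁻¹)) k]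
    refine Finset.prod_congr rfl fun j hj => ?_
    rw [mem_range] at hj
    congr 3
    omega
  rw [h1, h2, Finset.prod_div_distrib, ← h3]
  have n1 : ∏ j ∈ range k, (1 - p ^ (j + 1)) ≠ 0 := Finset.prod_ne_zero_iff.2 fun j _ => hp1 j
  have n2 : p ^ (M * k) ≠ 0 := pow_ne_zero _ hp
  have e5 : ((p ^ k)⁻¹) ^ k * ((p ^ k)⁻¹) ^ (M - k) * p ^ (M * k) = 1 := by
    rw [← pow_add]
    have : k + (M - k) = M := by omega
    rw [this, inv_pow, ← pow_mul, mul_comm k M]
    exact inv_mul_cancel₀ n2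
  set A := ∏ j ∈ range k, (1 - p ^ (j + 1))
  set B := ∏ i ∈ range (M - k), (1 - (p ^ (i + 1))⁻¹)
  set D := ∏ j ∈ range k, (1 - (p ^ (M - j))⁻¹)
  calc ((p ^ k)⁻¹) ^ k * A * (((p ^ k)⁻¹) ^ (M - k) * B) * (p ^ (M * k) * (D / A))
      = (((p ^ k)⁻¹) ^ k * ((p ^ k)⁻¹) ^ (M - k) * p ^ (M * k)) * (B * D) * (A / A) := by ring
    _ = B * D := by rw [e5, div_self n1]; ring

lemma node_injOn (a p : K) (hp : p ≠ 0) (hp1 : ∀ i, 1 - p ^ (i + 1) ≠ 0)
    (ha : ∀ i, 1 - a * p ^ i ≠ 0) (s : Set ℕ) : Set.InjOn (node a p) s := by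
  intro i _ j _ hij
  by_contra hne
  have h := node_sub a p hp i j
  rw [hij, sub_self] at h
  rcases mul_eq_zero.1 h.symm with h | h
  · have h1 : p ^ i = p ^ j := by
      have := sub_eq_zero.1 h
      exact inv_injective this
    rcases Nat.lt_or_gt_of_ne hne with hlt | hlt
    · obtain ⟨c, rfl⟩ : ∃ c, j = i + (c + 1) := ⟨j - i - 1, by omega⟩
      apply hp1 c
      rw [pow_add] at h1
      have h2 : p ^ i * (1 - p ^ (c + 1)) = 0 := by linear_combination h1
      exact (mul_eq_zero.1 h2).resolve_left (pow_ne_zero _ hp)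
    · obtain ⟨c, rfl⟩ : ∃ c, i = j + (c + 1) := ⟨i - j - 1, by omega⟩
      apply hp1 c
      rw [pow_add] at h1
      have h2 : p ^ j * (1 - p ^ (c + 1)) = 0 := by linear_combination -h1
      exact (mul_eq_zero.1 h2).resolve_left (pow_ne_zero _ hp)
  · exact ha _ h

/-- The weights are the weights of the divided difference, up to a constant. -/
lemma wt_mul (a p : K) (hp : p ≠ 0) (hp1 : ∀ i, 1 - p ^ (i + 1) ≠ 0)
    (ha : ∀ i, 1 - a * p ^ i ≠ 0) (M k : ℕ) (hk : k ≤ M) :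
    wt a p M k * ∏ j ∈ (range (M + 1)).erase k, (node a p k - node a p j) =
      (∏ i ∈ range M, (1 - (p ^ (i + 1))⁻¹)) * ∏ j ∈ range (M + 1), (1 - a * p ^ j) := by
  have h1 := prod_pinv p hp hp1 M k hk
  have h2 := prod_shift a p M k ha
  have h3 : (1 - a * p ^ (2 * k)) * ∏ j ∈ (range (M + 1)).erase k, (1 - a * p ^ (k + j)) =
      ∏ j ∈ range (M + 1), (1 - a * p ^ (k + j)) := by
    rw [two_mul]
    exact Finset.mul_prod_erase (range (M + 1)) (fun j => 1 - a * p ^ (k + j))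
      (mem_range.2 (by omega))
  rw [← h1, ← h2, ← h3]
  unfold wt
  simp only [node_sub a p hp, Finset.prod_mul_distrib, Finset.prod_div_distrib]
  ring

theorem sum_wt (a p : K) (hp : p ≠ 0) (hp1 : ∀ i, 1 - p ^ (i + 1) ≠ 0)
    (ha : ∀ i, 1 - a * p ^ i ≠ 0) (M : ℕ) (P : K[X]) (hP : P.natDegree < M) :
    ∑ k ∈ range (M + 1), wt a p M k * P.eval (node a p k) = 0 := by
  have hinj := node_injOn a p hp hp1 ha (range (M + 1) : Set ℕ)
  have hdeg : P.degree < ((range (M + 1)).card : ℕ) := by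
    rw [card_range]
    refine lt_of_le_of_lt Polynomial.degree_le_natDegree ?_
    exact_mod_cast (by omega : P.natDegree < M + 1)
  have h := Lagrange.coeff_eq_sum (s := range (M + 1)) (v := node a p) hinj hdeg
  rw [card_range, Nat.add_sub_cancel, Polynomial.coeff_eq_zero_of_natDegree_lt hP] at h
  set C := (∏ i ∈ range M, (1 - (p ^ (i + 1))⁻¹)) * ∏ j ∈ range (M + 1), (1 - a * p ^ j) with hC
  have h2 : ∀ k ∈ range (M + 1), wt a p M k * P.eval (node a p k) =
      C * (P.eval (node a p k) / ∏ j ∈ (range (M + 1)).erase k, (node a p k - node a p j)) := by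
    intro k hk
    have hk' : k ≤ M := by rw [mem_range] at hk; omega
    have h3 := wt_mul a p hp hp1 ha M k hk'
    have h4 : ∏ j ∈ (range (M + 1)).erase k, (node a p k - node a p j) ≠ 0 := by
      refine Finset.prod_ne_zero_iff.2 fun j hj => ?_
      rw [mem_erase] at hj
      rw [sub_ne_zero]
      intro heq
      exact hj.1 (hinj (by exact_mod_cast hk) (by exact_mod_cast hj.2) heq).symm
    rw [hC, ← h3]
    field_simp
  rw [Finset.sum_congr rfl h2, ← Finset.mul_sum, ← h, mul_zero]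

/-! ### Functions of the form `p^(e k) P(t_k)` -/

/-- `g k = p^(e k) P(t_k)` with `deg P ≤ e`. -/
def Nice (a p : K) (e : ℕ) (g : ℕ → K) : Prop :=
  ∃ P : K[X], P.natDegree ≤ e ∧ ∀ k, g k = p ^ (e * k) * P.eval (node a p k)

lemma Nice.one (a p : K) : Nice a p 0 (fun _ => 1) :=
  ⟨1, by simp, by simp⟩

lemma Nice.mul {a p : K} {e f : ℕ} {g h : ℕ → K} (hg : Nice a p e g) (hh : Nice a p f h) :
    Nice a p (e + f) (fun k => g k * h k) := by
  obtain ⟨P, hP, hP'⟩ := hg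
  obtain ⟨Q, hQ, hQ'⟩ := hh
  refine ⟨P * Q, (natDegree_mul_le).trans (add_le_add hP hQ), fun k => ?_⟩
  beta_reduce
  rw [hP', hQ', eval_mul, add_mul, pow_add]
  ring

lemma Nice.pow {a p : K} {e : ℕ} {g : ℕ → K} (hg : Nice a p e g) (N : ℕ) :
    Nice a p (N * e) (fun k => g k ^ N) := by
  induction N with
  | zero => simpa using Nice.one a p
  | succ N ih =>
    have h := ih.mul hg
    have e1 : N * e + e = (N + 1) * e := by ring
    rw [e1] at h
    simpa [pow_succ] using h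

lemma Nice.div_const {a p : K} {e : ℕ} {g : ℕ → K} (hg : Nice a p e g) (c : K) :
    Nice a p e (fun k => g k / c) := by
  obtain ⟨P, hP, hP'⟩ := hg
  refine ⟨P * C (c⁻¹), ?_, fun k => ?_⟩
  · refine (natDegree_mul_C_le _ _).trans hP
  · beta_reduce
    rw [hP', eval_mul, eval_C]
    ring

/-- A quadratic factor `p^k (t_k - β)`. -/
lemma Nice.lin (a p β : K) (hp : p ≠ 0) :
    Nice a p 1 (fun k => 1 - p ^ k * β + a * p ^ (2 * k)) := by
  refine ⟨X - C β, by rw [natDegree_X_sub_C], fun k => ?_⟩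
  rw [eval_sub, eval_X, eval_C]
  unfold node
  have h1 : p ^ k ≠ 0 := pow_ne_zero _ hp
  beta_reduce
  rw [one_mul, two_mul, pow_add]
  field_simp
  ring

lemma Nice.prod_lin (a p : K) (hp : p ≠ 0) (N : ℕ) (β : ℕ → K) :
    Nice a p N (fun k => ∏ l ∈ range N, (1 - p ^ k * β l + a * p ^ (2 * k))) := by
  induction N with
  | zero => simpa using Nice.one a p
  | succ N ih =>
    have h := ih.mul (Nice.lin a p (β N) hp)
    simpa [prod_range_succ] using h

end Pool.Agent.T9h94.QS
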