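import Pool.Agent.T9h94.QS.Families
import Pool.Agent.T9h94.QS.Defs

set_option autoImplicit false

/-!
# The truncated sums modulo powers of the cyclotomic polynomial
-/

namespace Pool.Agent.T9h94.QS

open Finset Polynomial

lemma toR_inj : Function.Injective toR := by
  intro P Q h
  unfold toR at h
  rw [RingHom.comp_apply, RingHom.comp_apply] at h
  have h1 := RatFunc.algebraMap_injective ℚ h
  rw [coe_mapRingHom] at h1
  exact Polynomial.map_injective _ (Int.castRingHom ℚ).injective_int h1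

lemma toR_X : toR X = RatFunc.X := by
  unfold toR
  rw [RingHom.comp_apply, coe_mapRingHom, map_X, RatFunc.algebraMap_X]

/-- The `k`-th term with cleared denominators. -/
noncomputable def term {C : Type*} [CommRing C] (q : C) (d e n k : ℕ) : C :=
  (1 - q ^ (1 + 2 * d * k)) * q ^ (e * k) * ((∏ j ∈ range k, (1 - q ^ (1 + d * j))) *
    ∏ j ∈ Ico (k + 1) n, (1 - q ^ (d * j))) ^ d

/-- The common denominator. -/
noncomputable def den {C : Type*} [CommRing C] (q : C) (d n : ℕ) : C :=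
  (1 - q) * (∏ j ∈ Ico 1 n, (1 - q ^ (d * j))) ^ d

lemma map_term {C C' : Type*} [CommRing C] [CommRing C'] (f : C →+* C') (q : C) (d e n k : ℕ) :
    f (term q d e n k) = term (f q) d e n k := by
  unfold term
  simp only [map_mul, map_sub, map_one, map_pow, map_prod]

lemma map_den {C C' : Type*} [CommRing C] [CommRing C'] (f : C →+* C') (q : C) (d n : ℕ) :
    f (den q d n) = den (f q) d n := by
  unfold den
  simp only [map_mul, map_sub, map_one, map_pow, map_prod]

lemma one_sub_ne {m : ℕ} (hm : m ≠ 0) : (1 : RatFunc ℚ) - RatFunc.X ^ m ≠ 0 := by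
  rw [← RatFunc.algebraMap_X, ← zpow_natCast]
  exact good_X.2 _ (by exact_mod_cast hm)

lemma S_mul_den (t n : ℕ) (ht : 2 ≤ t) :
    S (2 * t + 1) n * den RatFunc.X (2 * t + 1) n =
      ∑ k ∈ range n, term RatFunc.X (2 * t + 1) ((2 * t + 1) * (t - 1)) n k := by
  unfold S
  rw [Finset.sum_mul]
  refine Finset.sum_congr rfl fun k hk => ?_
  rw [mem_range] at hk
  have he : (2 * t + 1) * (2 * t + 1 - 3) / 2 = (2 * t + 1) * (t - 1) := by
    have : 2 * t + 1 - 3 = 2 * (t - 1) := by omega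
    rw [this, ← mul_assoc, mul_comm (2 * t + 1) 2, mul_assoc, Nat.mul_div_cancel_left _ (by omega)]
  rw [he]
  set d := 2 * t + 1 with hd
  set q : RatFunc ℚ := RatFunc.X with hq
  have h1 : poch q (q ^ d) k = ∏ j ∈ range k, (1 - q ^ (1 + d * j)) := by
    unfold poch
    refine Finset.prod_congr rfl fun j _ => ?_
    rw [← pow_mul, ← pow_succ', add_comm 1]
  have h2 : poch (q ^ d) (q ^ d) k = ∏ j ∈ range k, (1 - q ^ (d * (j + 1))) := by
    unfold poch
    refine Finset.prod_congr rfl fun j _ => ?_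
    rw [← pow_succ', ← pow_mul]
  have h3 : ∏ j ∈ Ico 1 n, (1 - q ^ (d * j)) = (∏ j ∈ range k, (1 - q ^ (d * (j + 1)))) *
      ∏ j ∈ Ico (k + 1) n, (1 - q ^ (d * j)) := by
    rw [← Finset.prod_Ico_consecutive _ (by omega : 1 ≤ k + 1) (by omega : k + 1 ≤ n)]
    congr 1
    rw [Finset.prod_Ico_eq_prod_range]
    have : k + 1 - 1 = k := by omega
    rw [this]
    refine Finset.prod_congr rfl fun j _ => ?_
    rw [add_comm 1 j]
  have hn1 : ∏ j ∈ range k, (1 - q ^ (d * (j + 1))) ≠ 0 := by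
    refine Finset.prod_ne_zero_iff.2 fun j _ => one_sub_ne ?_
    positivity
  have hn2 : (1 : RatFunc ℚ) - q ≠ 0 := by
    have := one_sub_ne (m := 1) one_ne_zero
    rwa [pow_one] at this
  have hqi : qInt (2 * d * k + 1) = (1 - q ^ (2 * d * k + 1)) / (1 - q) := rfl
  unfold term den
  rw [hqi, h1, h2, h3, div_pow, mul_pow, mul_pow]
  have hn3 : (∏ j ∈ range k, (1 - q ^ (d * (j + 1)))) ^ d ≠ 0 := pow_ne_zero _ hn1
  have e1 : 1 + 2 * d * k = 2 * d * k + 1 := by ring
  rw [e1]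
  field_simp

lemma not_dvd_den (d n : ℕ) (hn : 2 ≤ n) (hdn : Nat.Coprime n d) :
    ¬ cyclotomic n ℤ ∣ den (X : ℤ[X]) d n := by
  intro h
  have : NeZero n := ⟨by omega⟩
  have hζ := Complex.isPrimitiveRoot_exp n (by omega)
  set ζ : ℂ := Complex.exp (2 * Real.pi * Complex.I / n) with hζd
  have h0 : (cyclotomic n ℤ).eval₂ (Int.castRingHom ℂ) ζ = 0 := by
    have := (isRoot_cyclotomic_iff (R := ℂ) (n := n) (μ := ζ)).2 hζ
    rw [IsRoot.def, ← map_cyclotomic n (Int.castRingHom ℂ), eval_map] at this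
    exact this
  obtain ⟨Q, hQ⟩ := h
  have h1 := congrArg (Polynomial.eval₂RingHom (Int.castRingHom ℂ) ζ) hQ
  rw [map_mul, map_den] at h1
  simp only [coe_eval₂RingHom, eval₂_X, h0, zero_mul] at h1
  unfold den at h1
  have h2 : ∀ m : ℕ, ¬ n ∣ m → 1 - ζ ^ m ≠ 0 := by
    intro m hm h
    apply hm
    exact (hζ.pow_eq_one_iff_dvd m).1 (sub_eq_zero.1 h).symm
  rcases mul_eq_zero.1 h1 with h3 | h3
  · have := h2 1 (by intro h; have := Nat.le_of_dvd one_pos h; omega)
    rw [pow_one] at this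
    exact this h3
  · rcases Nat.eq_zero_or_pos d with hd | hd
    · rw [hd, pow_zero] at h3
      exact one_ne_zero h3
    · have h5 := (pow_eq_zero_iff hd.ne').1 h3
      rw [Finset.prod_eq_zero_iff] at h5
      obtain ⟨j, hj, hj0⟩ := h5
      rw [mem_Ico] at hj
      refine h2 (d * j) ?_ hj0
      intro hdvd
      have := hdn.dvd_of_dvd_mul_left hdvd
      have := Nat.le_of_dvd (by omega) this
      omega

lemma Zp_coeff_zero (t e M : ℕ) (ht : 1 ≤ t) :
    (Zp (2 * t - 2) (2 * t + 1) e M).coeff 0 =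
      ∑ k ∈ range (M + 1), term (X : ℚ[X]) (2 * t + 1) e (M + 1) k := by
  rw [coeff_zero_eq_eval_zero]
  have h1 : (Zp (2 * t - 2) (2 * t + 1) e M).eval 0 =
    evalRingHom 0 (Zp (2 * t - 2) (2 * t + 1) e M) := rfl
  rw [h1]
  unfold Zp
  rw [map_W (evalRingHom (0 : ℚ[X])) (2 * t + 1) e M (C X) (nuK (2 * t - 2) X) (nuK (2 * t - 2) X)
    (nuK (2 * t - 2) 0) (nuK (2 * t - 2) 0)]
  · unfold W
    refine Finset.sum_congr rfl fun k _ => ?_
    unfold term
    rw [mul_pow, ← Finset.prod_pow, ← Finset.prod_pow, coe_evalRingHom, eval_C, mul_assoc _ (∏ j ∈ range k, _)]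
    have h2 : ∀ c : ℚ[X], (1 - c) * nuK (2 * t - 2) 0 c = (1 - c) ^ (2 * t + 1) := by
      intro c
      unfold nuK
      have : 2 * t - 2 + 2 = 2 * t := by omega
      rw [this]
      ring
    simp only [h2]
  · intro c
    rw [map_nuK]
    simp
  · intro c
    rw [map_nuK]
    simp

/-- The full sum is divisible by `Φ^j` if the shorter one is. -/
lemma full_dvd (Φ : ℚ[X]) (d e M n j : ℕ) (hMn : M + 1 ≤ n) (hjd : j ≤ d)
    (hΦ : Φ ∣ 1 - X ^ (1 + d * M))
    (h : Φ ^ j ∣ ∑ k ∈ range (M + 1), term (X : ℚ[X]) d e (M + 1) k) :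
    Φ ^ j ∣ ∑ k ∈ range n, term (X : ℚ[X]) d e n k := by
  rw [Finset.range_eq_Ico, ← Finset.sum_Ico_consecutive _ (Nat.zero_le (M + 1)) hMn]
  refine dvd_add ?_ ?_
  · rw [← Finset.range_eq_Ico]
    have : ∑ k ∈ range (M + 1), term (X : ℚ[X]) d e n k =
        (∑ k ∈ range (M + 1), term (X : ℚ[X]) d e (M + 1) k) *
          (∏ j ∈ Ico (M + 1) n, (1 - X ^ (d * j))) ^ d := by
      rw [Finset.sum_mul]
      refine Finset.sum_congr rfl fun k hk => ?_
      rw [mem_range] at hk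
      unfold term
      rw [← Finset.prod_Ico_consecutive _ (by omega : k + 1 ≤ M + 1) hMn]
      set a := ∏ j ∈ range k, ((1 : ℚ[X]) - X ^ (1 + d * j))
      set b := ∏ j ∈ Ico (k + 1) (M + 1), ((1 : ℚ[X]) - X ^ (d * j))
      set c := ∏ j ∈ Ico (M + 1) n, ((1 : ℚ[X]) - X ^ (d * j))
      rw [← mul_assoc a b c, mul_pow (a * b) c]
      ring
    rw [this]
    exact h.mul_right _
  · refine Finset.dvd_sum fun k hk => ?_
    rw [mem_Ico] at hk
    unfold term
    have h1 : Φ ∣ ∏ j ∈ range k, (1 - X ^ (1 + d * j)) :=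
      hΦ.trans (Finset.dvd_prod_of_mem _ (mem_range.2 (by omega)))
    refine Dvd.dvd.mul_left ?_ _
    exact (pow_dvd_pow _ hjd).trans (pow_dvd_pow_of_dvd (h1.mul_right _) d)

/-- From divisibility over `ℚ` to the congruence. -/
lemma congZero_of_dvd (t n j : ℕ) (ht : 2 ≤ t) (hn : 2 ≤ n) (hdn : Nat.Coprime n (2 * t + 1))
    (h : (cyclotomic n ℚ) ^ j ∣
      ∑ k ∈ range n, term (X : ℚ[X]) (2 * t + 1) ((2 * t + 1) * (t - 1)) n k) :
    CongZero n j (S (2 * t + 1) n) := by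
  set d := 2 * t + 1 with hd
  set e := d * (t - 1) with he
  set P : ℤ[X] := ∑ k ∈ range n, term (X : ℤ[X]) d e n k with hP
  have h1 : (cyclotomic n ℤ) ^ j ∣ P := by
    have hm : ((cyclotomic n ℤ) ^ j).Monic := (cyclotomic.monic n ℤ).pow j
    rw [← Polynomial.map_dvd_map (Int.castRingHom ℚ) (Int.castRingHom ℚ).injective_int hm]
    rw [Polynomial.map_pow, map_cyclotomic]
    have : P.map (Int.castRingHom ℚ) = ∑ k ∈ range n, term (X : ℚ[X]) d e n k := by
      have h2 : P.map (Int.castRingHom ℚ) = mapRingHom (Int.castRingHom ℚ) P := rfl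
      rw [h2, hP, map_sum]
      refine Finset.sum_congr rfl fun k _ => ?_
      rw [map_term, coe_mapRingHom, map_X]
    rw [this]
    exact h
  obtain ⟨A, hA⟩ := h1
  have hden := not_dvd_den d n hn hdn
  refine ⟨A, den X d n, hden, ?_⟩
  have hne : toR (den X d n) ≠ 0 := by
    rw [Ne, map_eq_zero_iff _ toR_inj]
    intro h0
    apply hden
    rw [h0]
    exact dvd_zero _
  rw [eq_div_iff hne, ← map_pow, ← map_mul, ← hA, map_den, toR_X, hP, map_sum]
  simp only [map_term, toR_X]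
  exact S_mul_den t n ht

lemma cyc_coprime_X (n : ℕ) (hn : 1 < n) : IsCoprime (cyclotomic n ℚ) X := by
  refine ⟨1, -(cyclotomic n ℚ).divX, ?_⟩
  have h := Polynomial.divX_mul_X_add (cyclotomic n ℚ)
  rw [cyclotomic_coeff_zero ℚ hn, C_1] at h
  linear_combination -h

lemma not_dvd_pow (n c : ℕ) (hn : 2 ≤ n) (hc : ¬ n ∣ c) : ¬ cyclotomic n ℚ ∣ X ^ c - 1 := by
  intro h
  have : NeZero n := ⟨by omega⟩
  have hζ := Complex.isPrimitiveRoot_exp n (by omega)
  set ζ : ℂ := Complex.exp (2 * Real.pi * Complex.I / n) with hζd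
  have h0 : (cyclotomic n ℚ).eval₂ (algebraMap ℚ ℂ) ζ = 0 := by
    have := (isRoot_cyclotomic_iff (R := ℂ) (n := n) (μ := ζ)).2 hζ
    rw [IsRoot.def, ← map_cyclotomic n (algebraMap ℚ ℂ), eval_map] at this
    exact this
  obtain ⟨Q, hQ⟩ := h
  have h1 := congrArg (Polynomial.eval₂RingHom (algebraMap ℚ ℂ) ζ) hQ
  rw [map_mul] at h1
  simp only [coe_eval₂RingHom, h0, zero_mul, eval₂_sub, eval₂_pow, eval₂_X, eval₂_one] at h1
  exact hc ((hζ.pow_eq_one_iff_dvd c).1 (sub_eq_zero.1 h1))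

theorem main_one (t m n : ℕ) (ht : 2 ≤ t) (hm : 1 ≤ m) (hn : n + 1 = (2 * t + 1) * m) :
    CongZero n 3 (S (2 * t + 1) n) := by
  have hn2 : 2 ≤ n := by nlinarith
  have hcop : Nat.Coprime n (2 * t + 1) := by
    have : Nat.Coprime n (n + 1) := by simp
    rw [hn] at this
    exact Nat.Coprime.coprime_mul_right_right this
  refine congZero_of_dvd t n 3 ht hn2 hcop ?_
  set Φ := cyclotomic n ℚ with hΦ
  have hX := cyc_coprime_X n (by omega)
  have hdvd : Φ ∣ X ^ n - 1 := cyclotomic.dvd_X_pow_sub_one n ℚ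
  have hM : 1 + (2 * t + 1) * (2 * t * m - 1) = n * (2 * t) := by
    have h1 : 2 * t * m - 1 + 1 = 2 * t * m := by
      have : 0 < 2 * t * m := by positivity
      omega
    have h2 : 1 + (2 * t + 1) * (2 * t * m - 1) + (2 * t) = (2 * t + 1) * (2 * t * m) := by
      generalize 2 * t * m - 1 = M at h1 ⊢
      rw [← h1]; ring
    have h3 : n * (2 * t) + 2 * t = (2 * t + 1) * (2 * t * m) := by
      calc n * (2 * t) + 2 * t = (n + 1) * (2 * t) := by ring
        _ = _ := by rw [hn]; ring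
    omega
  refine full_dvd Φ (2 * t + 1) ((2 * t + 1) * (t - 1)) (2 * t * m - 1) n 3 ?_ (by omega) ?_ ?_
  · have h1 : 0 < 2 * t * m := by positivity
    have h2 : 2 * t * m + m = n + 1 := by rw [hn]; ring
    omega
  · rw [hM, pow_mul, ← neg_sub, dvd_neg]
    have := sub_dvd_pow_sub_pow ((X : ℚ[X]) ^ n) 1 (2 * t)
    rw [one_pow] at this
    exact hdvd.trans this
  · rw [← Zp_coeff_zero t ((2 * t + 1) * (t - 1)) (2 * t * m - 1) (by omega)]
    have hA := WY_eval_zero ((0, 2 * t) :: LA t) _ _ _ n (vanish_A good_X t m n ht hm hn)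
    have hA' := WY_eval_zero ((0, 2 * t) :: LA' t) _ _ _ n (vanish_A' good_X t m n ht hm hn)
    have h1 := dvd3 Φ hX ((0, 2 * t) :: LA t) (2 * t - 2) (by unfold LA; simp; omega)
      (by
        obtain ⟨t, rfl⟩ : ∃ s, t = s + 2 := ⟨t - 2, by omega⟩
        unfold LA dif; simp; ring) _ _ _ n hdvd hA
    have h2 := dvd3 Φ hX ((0, 2 * t) :: LA' t) (2 * t - 2) (by unfold LA'; simp; omega)
      (by
        obtain ⟨t, rfl⟩ : ∃ s, t = s + 2 := ⟨t - 2, by omega⟩
        unfold LA' dif; simp; ring) _ _ _ n hdvd hA'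
    refine two_values (Φ ^ 3) _ _ ((X ^ n - 1) ^ 2) _ _ ?_ h1 h2
    obtain ⟨t, rfl⟩ : ∃ s, t = s + 2 := ⟨t - 2, by omega⟩
    have e1 : sq ((0, 2 * (t + 2)) :: LA (t + 2)) = (2 * (t + 2)) ^ 2 + (t + 3) ^ 2 + (t + 1) := by
      unfold LA sq dif
      simp
      ring
    have e2 : sq ((0, 2 * (t + 2)) :: LA' (t + 2)) = (2 * (t + 2)) ^ 2 + (t + 3) ^ 2 + 5 + t := by
      unfold LA' sq dif
      simp
      ring
    rw [e1, e2]
    push_cast
    intro h
    linarith

theorem main_two (t h n : ℕ) (ht : 2 ≤ t) (hn : 2 * n + 1 = (2 * t + 1) * (2 * h + 1)) :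
    CongZero n 4 (S (2 * t + 1) n) := by
  have hn2 : 2 ≤ n := by nlinarith
  have hcop : Nat.Coprime n (2 * t + 1) := by
    have : Nat.Coprime n (2 * n + 1) := by simp
    rw [hn] at this
    exact Nat.Coprime.coprime_mul_right_right this
  refine congZero_of_dvd t n 4 ht hn2 hcop ?_
  set Φ := cyclotomic n ℚ with hΦ
  have hX := cyc_coprime_X n (by omega)
  have hprime : Prime Φ := (cyclotomic.irreducible_rat (by omega)).prime
  have hdvd : Φ ∣ X ^ n - 1 := cyclotomic.dvd_X_pow_sub_one n ℚ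
  have hM : 1 + (2 * t + 1) * ((2 * t - 1) * h + t - 1) = n * (2 * t - 1) := by
    obtain ⟨t, rfl⟩ : ∃ s, t = s + 2 := ⟨t - 2, by omega⟩
    have eM : (2 * (t + 2) - 1) * h + (t + 2) - 1 = (2 * t + 3) * h + t + 1 := by
      have : 2 * (t + 2) - 1 = 2 * t + 3 := by omega
      rw [this]; omega
    have eS : 2 * (t + 2) - 1 = 2 * t + 3 := by omega
    rw [eM, eS]
    zify at hn ⊢
    nlinarith
  have hpow : Φ ∣ X ^ (n * (2 * t - 1)) - 1 := by
    rw [pow_mul]
    have := sub_dvd_pow_sub_pow ((X : ℚ[X]) ^ n) 1 (2 * t - 1)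
    rw [one_pow] at this
    exact hdvd.trans this
  have hanti := anti_dvd Φ (2 * t + 1) t ((2 * t - 1) * h + t - 1) rfl (by omega)
    (by rw [add_comm ((2 * t + 1) * _) 1, hM]; exact hpow)
    (by
      intro ρ hρ hodd
      rw [add_comm ((2 * t + 1) * _) 1, hM] at hρ
      have hne : Even n := by
        have h1 : Even (n * (2 * t - 1)) := ⟨ρ, by rw [← hρ]; ring⟩
        rw [Nat.even_mul] at h1
        rcases h1 with h1 | h1
        · exact h1
        · exfalso
          rw [Nat.even_iff] at h1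
          omega
      obtain ⟨c, hc⟩ := hne
      have hc2 : n = 2 * c := by omega
      have hρc : ρ = c * (2 * t - 1) := by
        have : 2 * ρ = 2 * (c * (2 * t - 1)) := by rw [hρ, hc2]; ring
        omega
      have h3 : Φ ∣ X ^ c + 1 := by
        have h4 : Φ ∣ (X ^ c - 1) * (X ^ c + 1) := by
          have : ((X : ℚ[X]) ^ c - 1) * (X ^ c + 1) = X ^ n - 1 := by
            rw [hc2, two_mul, pow_add]; ring
          rw [this]
          exact hdvd
        rcases hprime.dvd_or_dvd h4 with h5 | h5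
        · exfalso
          refine not_dvd_pow n c hn2 ?_ h5
          intro h6
          have := Nat.le_of_dvd (by omega) h6
          omega
        · exact h5
      rw [hρc, pow_mul]
      have hodd2 : Odd (2 * t - 1) := ⟨t - 1, by omega⟩
      have := hodd2.add_dvd_pow_add_pow ((X : ℚ[X]) ^ c) 1
      rw [one_pow] at this
      exact h3.trans this)
  refine full_dvd Φ (2 * t + 1) ((2 * t + 1) * (t - 1)) ((2 * t - 1) * h + t - 1) n 4 ?_
    (by omega) ?_ ?_
  · obtain ⟨t, rfl⟩ : ∃ s, t = s + 2 := ⟨t - 2, by omega⟩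
    have eM : (2 * (t + 2) - 1) * h + (t + 2) - 1 = (2 * t + 3) * h + t + 1 := by
      have : 2 * (t + 2) - 1 = 2 * t + 3 := by omega
      rw [this]; omega
    rw [eM]
    nlinarith
  · rw [hM, ← neg_sub, dvd_neg]
    exact hpow
  · rw [← Zp_coeff_zero t ((2 * t + 1) * (t - 1)) ((2 * t - 1) * h + t - 1) (by omega)]
    have hB := WY_eval_zero ((0, 2 * t - 1) :: LB t) _ _ _ n (vanish_B good_X t h n ht hn)
    have hB' := WY_eval_zero ((0, 2 * t - 1) :: LB' t) _ _ _ n (vanish_B' good_X t h n ht hn)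
    have l1 : ((0, 2 * t - 1) :: LB t).length = 2 * t := by unfold LB; simp; omega
    have l2 : ((0, 2 * t - 1) :: LB' t).length = 2 * t := by unfold LB'; simp; omega
    have h1 := dvd4 Φ hprime hX ((0, 2 * t - 1) :: LB t) (2 * t - 2) (by rw [l1]; omega)
      (by unfold LB dif; simp) _ _ _ n hdvd hB (hanti.1 _ l1) hanti.2
    have h2 := dvd4 Φ hprime hX ((0, 2 * t - 1) :: LB' t) (2 * t - 2) (by rw [l2]; omega)
      (by
        obtain ⟨t, rfl⟩ : ∃ s, t = s + 2 := ⟨t - 2, by omega⟩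
        have eS : 2 * (t + 2) - 1 = 2 * t + 3 := by omega
        have eS' : 2 * (t + 2) - 3 = 2 * t + 1 := by omega
        unfold LB' dif; rw [eS, eS']; simp; ring) _ _ _ n hdvd hB' (hanti.1 _ l2) hanti.2
    refine two_values (Φ ^ 4) _ _ ((X ^ n - 1) ^ 2) _ _ ?_ h1 h2
    obtain ⟨t, rfl⟩ : ∃ s, t = s + 2 := ⟨t - 2, by omega⟩
    have eS : 2 * (t + 2) - 1 = 2 * t + 3 := by omega
    have eS' : 2 * (t + 2) - 3 = 2 * t + 1 := by omega
    have e1 : sq ((0, 2 * (t + 2) - 1) :: LB (t + 2)) = (2 * t + 3) ^ 2 + (2 * t + 3) := by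
      unfold LB sq dif
      rw [eS]
      simp
      ring
    have e2 : sq ((0, 2 * (t + 2) - 1) :: LB' (t + 2)) = (2 * t + 3) ^ 2 + 4 + (2 * t + 1) := by
      unfold LB' sq dif
      rw [eS, eS']
      simp
      ring
    rw [e1, e2]
    push_cast
    intro h
    linarith

end Pool.Agent.T9h94.QS
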