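import Pool.Agent.T9h94.QS.Kernel

set_option autoImplicit false

/-!
# Ratios of shifted factorials that are polynomial in the nodes
-/

namespace Pool.Agent.T9h94.QS

open Finset Polynomial

variable {K : Type*} [Field K]

/-- `∏_{l < u} (1 - x p^(k-1-l))`. -/
noncomputable def hf (p x : K) (u k : ℕ) : K :=
  ∏ l ∈ range u, (1 - x * p ^ ((k : ℤ) - 1 - l))

lemma hf_succ (p x : K) (u k : ℕ) :
    hf p x u (k + 1) * (1 - x * p ^ ((k : ℤ) - u)) = hf p x u k * (1 - x * p ^ (k : ℤ)) := by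
  unfold hf
  have e1 := prod_range_succ (fun l : ℕ => (1 - x * p ^ ((k : ℤ) - l))) u
  have e2 := prod_range_succ' (fun l : ℕ => (1 - x * p ^ ((k : ℤ) - l))) u
  rw [e1] at e2
  have h1 : ∀ l : ℕ, ((k + 1 : ℕ) : ℤ) - 1 - l = (k : ℤ) - l := fun l => by push_cast; ring
  have h2 : ∀ l : ℕ, (k : ℤ) - 1 - l = (k : ℤ) - ((l + 1 : ℕ) : ℤ) := fun l => by push_cast; ring
  simp only [h1, h2]
  simpa using e2

lemma ratio_eq (p x : K) (u k : ℕ) (hx : ∀ j : ℕ, 1 - x * p ^ ((j : ℤ) - u) ≠ 0) :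
    ∏ j ∈ range k, ((1 - x * p ^ (j : ℤ)) / (1 - x * p ^ ((j : ℤ) - u))) =
      hf p x u k / hf p x u 0 := by
  have h0 : hf p x u 0 ≠ 0 := by
    unfold hf
    refine Finset.prod_ne_zero_iff.2 fun l hl => ?_
    rw [mem_range] at hl
    have := hx (u - 1 - l)
    have e : (((u - 1 - l : ℕ) : ℤ)) - u = ((0 : ℕ) : ℤ) - 1 - l := by
      have : ((u - 1 - l : ℕ) : ℤ) = (u : ℤ) - 1 - l := by omega
      rw [this]; push_cast; ring
    rw [e] at this
    exact this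
  induction k with
  | zero => simp [h0]
  | succ k ih =>
    rw [prod_range_succ, ih]
    have h1 := hf_succ p x u k
    have h2 := hx k
    field_simp
    linear_combination -h1

lemma hf_pair (a p x x' : K) (hp : p ≠ 0) (u k : ℕ) (hxx : x * x' = a * p ^ (u + 1)) :
    (∏ l ∈ range u, (1 - x * p ^ ((k : ℤ) - 1 - l)) * (1 - x' * p ^ ((k : ℤ) - u + l))) =
      ∏ l ∈ range u, (1 - p ^ k * (x * p ^ (-1 - (l : ℤ)) + x' * p ^ (-(u : ℤ) + l)) +
        a * p ^ (2 * k)) := by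
  refine Finset.prod_congr rfl fun l _ => ?_
  have e1 : p ^ ((k : ℤ) - 1 - l) = p ^ k * p ^ (-1 - (l : ℤ)) := by
    rw [← zpow_natCast p k, ← zpow_add₀ hp]; congr 1; ring
  have e2 : p ^ ((k : ℤ) - u + l) = p ^ k * p ^ (-(u : ℤ) + l) := by
    rw [← zpow_natCast p k, ← zpow_add₀ hp]; congr 1; ring
  have e3 : p ^ (-1 - (l : ℤ)) * p ^ (-(u : ℤ) + l) * p ^ (u + 1) = 1 := by
    rw [← zpow_natCast p (u + 1), ← zpow_add₀ hp, ← zpow_add₀ hp]
    have : (-1 - (l : ℤ) + (-(u : ℤ) + l) + ((u + 1 : ℕ) : ℤ)) = 0 := by push_cast; ring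
    rw [this, zpow_zero]
  rw [e1, e2, two_mul, pow_add]
  linear_combination (p ^ k * p ^ k * (p ^ (-1 - (l : ℤ)) * p ^ (-(u : ℤ) + l))) * hxx +
    (a * p ^ k * p ^ k) * e3

lemma hf_reflect (p x : K) (u k : ℕ) :
    hf p x u k = ∏ l ∈ range u, (1 - x * p ^ ((k : ℤ) - u + l)) := by
  unfold hf
  rw [← Finset.prod_range_reflect (fun l : ℕ => (1 - x * p ^ ((k : ℤ) - u + l))) u]
  refine Finset.prod_congr rfl fun l hl => ?_
  rw [mem_range] at hl
  have : ((u - 1 - l : ℕ) : ℤ) = (u : ℤ) - 1 - l := by omega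
  rw [this]
  congr 3
  ring

/-- The pair of parameters `x`, `x'` with `x x' = a p^(u+1)`. -/
lemma nice_pair (a p x x' : K) (hp : p ≠ 0) (u : ℕ) (hxx : x * x' = a * p ^ (u + 1)) :
    Nice a p u (fun k => hf p x u k * hf p x' u k) := by
  have h := Nice.prod_lin a p hp u (fun l => x * p ^ (-1 - (l : ℤ)) + x' * p ^ (-(u : ℤ) + l))
  have e : (fun k => hf p x u k * hf p x' u k) = fun k => ∏ l ∈ range u,
      (1 - p ^ k * (x * p ^ (-1 - (l : ℤ)) + x' * p ^ (-(u : ℤ) + l)) + a * p ^ (2 * k)) := by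
    funext k
    rw [← hf_pair a p x x' hp u k hxx, Finset.prod_mul_distrib, hf_reflect p x' u k]
    rfl
  rw [e]
  exact h

/-- A single parameter `x` with `x² = a p^(2v+1)`. -/
lemma nice_single (a p x : K) (hp : p ≠ 0) (v : ℕ) (hxx : x * x = a * p ^ (2 * v + 1)) :
    Nice a p v (fun k => hf p x (2 * v) k) := by
  have h := Nice.prod_lin a p hp v
    (fun l => x * p ^ (-1 - (l : ℤ)) + x * p ^ (-((2 * v : ℕ) : ℤ) + l))
  have e : (fun k => hf p x (2 * v) k) = fun k => ∏ l ∈ range v,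
      (1 - p ^ k * (x * p ^ (-1 - (l : ℤ)) + x * p ^ (-((2 * v : ℕ) : ℤ) + l)) +
        a * p ^ (2 * k)) := by
    funext k
    have h1 : hf p x (2 * v) k = (∏ l ∈ range v, (1 - x * p ^ ((k : ℤ) - 1 - l))) *
        ∏ l ∈ range v, (1 - x * p ^ ((k : ℤ) - ((2 * v : ℕ) : ℤ) + l)) := by
      unfold hf
      rw [two_mul, prod_range_add]
      congr 1
      rw [← Finset.prod_range_reflect
        (fun l : ℕ => (1 - x * p ^ ((k : ℤ) - ((v + v : ℕ) : ℤ) + l))) v]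
      refine Finset.prod_congr rfl fun l hl => ?_
      rw [mem_range] at hl
      have : ((v - 1 - l : ℕ) : ℤ) = (v : ℤ) - 1 - l := by omega
      rw [this]
      congr 3
      push_cast
      ring
    rw [h1, ← Finset.prod_mul_distrib]
    refine Finset.prod_congr rfl fun l _ => ?_
    have e1 : p ^ ((k : ℤ) - 1 - l) = p ^ k * p ^ (-1 - (l : ℤ)) := by
      rw [← zpow_natCast p k, ← zpow_add₀ hp]; congr 1; ring
    have e2 : p ^ ((k : ℤ) - ((2 * v : ℕ) : ℤ) + l) = p ^ k * p ^ (-((2 * v : ℕ) : ℤ) + l) := by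
      rw [← zpow_natCast p k, ← zpow_add₀ hp]; congr 1; ring
    have e3 : p ^ (-1 - (l : ℤ)) * p ^ (-((2 * v : ℕ) : ℤ) + l) * p ^ (2 * v + 1) = 1 := by
      rw [← zpow_natCast p (2 * v + 1), ← zpow_add₀ hp, ← zpow_add₀ hp]
      have : (-1 - (l : ℤ) + (-((2 * v : ℕ) : ℤ) + l) + ((2 * v + 1 : ℕ) : ℤ)) = 0 := by
        push_cast; ring
      rw [this, zpow_zero]
    rw [e1, e2, two_mul k, pow_add]
    linear_combination (p ^ k * p ^ k * (p ^ (-1 - (l : ℤ)) * p ^ (-((2 * v : ℕ) : ℤ) + l))) * hxx +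
      (a * p ^ k * p ^ k) * e3
  rw [e]
  exact h

end Pool.Agent.T9h94.QS
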