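import Pool.Agent.T9h94.QS.Vanish

set_option autoImplicit false

/-!
# Second order expansion of the deformed sums
-/

namespace Pool.Agent.T9h94.QS

open Finset Polynomial

variable {C : Type*} [CommRing C]

/-- The truncated exponential `1 + r s + r² h s²`. -/
def Ex (h s : C) (r : ℤ) : C := 1 + r * s + r ^ 2 * h * s ^ 2

lemma Ex_add (h s : C) (hh : 2 * h = 1) (hs : s ^ 3 = 0) (a b : ℤ) :
    Ex h s a * Ex h s b = Ex h s (a + b) := by
  unfold Ex
  push_cast
  linear_combination (-(a : C) * b * s ^ 2) * hh +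
    ((a : C) * b ^ 2 * h + (a : C) ^ 2 * b * h + (a : C) ^ 2 * b ^ 2 * h ^ 2 * s) * hs

lemma pow_eq_Ex (h s Y : C) (hh : 2 * h = 1) (hs : s ^ 3 = 0) (hY : Y = Ex h s 1) (n : ℕ) :
    Y ^ n = Ex h s n := by
  induction n with
  | zero => simp [Ex]
  | succ n ih =>
    rw [pow_succ, ih, hY, Ex_add h s hh hs]
    push_cast
    rfl

lemma prod_Ex (h s c : C) (hh : 2 * h = 1) (hs : s ^ 3 = 0) (r1 r2 : ℤ) (R : List ℤ) :
    ((r1 :: r2 :: R).map fun r => 1 - c * Ex h s r).prod =
      (1 - c) ^ (R.length + 2) - (1 - c) ^ (R.length + 1) * c *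
        (((r1 :: r2 :: R).sum : ℤ) * s + (((r1 :: r2 :: R).map fun r => r ^ 2).sum : ℤ) * h * s ^ 2)
        + (1 - c) ^ R.length * c ^ 2 * s ^ 2 * h *
          ((((r1 :: r2 :: R).sum : ℤ) : C) ^ 2 - (((r1 :: r2 :: R).map fun r => r ^ 2).sum : ℤ)) := by
  induction R with
  | nil =>
    simp only [List.map_cons, List.map_nil, List.prod_cons, List.prod_nil, List.sum_cons,
      List.sum_nil, List.length_nil, mul_one, add_zero, zero_add, pow_zero, pow_one]
    unfold Ex
    push_cast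
    linear_combination (-(c ^ 2 * s ^ 2 * r1 * r2 : C)) * hh +
      (c ^ 2 * r1 * r2 ^ 2 * h + c ^ 2 * r1 ^ 2 * r2 * h + c ^ 2 * r1 ^ 2 * r2 ^ 2 * h ^ 2 * s) * hs
  | cons r R ih =>
    have e1 : ((r1 :: r2 :: r :: R).map fun r => 1 - c * Ex h s r).prod =
        ((r1 :: r2 :: R).map fun r => 1 - c * Ex h s r).prod * (1 - c * Ex h s r) := by
      simp only [List.map_cons, List.prod_cons]
      ring
    have e2 : (r1 :: r2 :: r :: R).sum = (r1 :: r2 :: R).sum + r := by
      simp only [List.sum_cons]; ring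
    have e3 : ((r1 :: r2 :: r :: R).map fun r => r ^ 2).sum =
        ((r1 :: r2 :: R).map fun r => r ^ 2).sum + r ^ 2 := by
      simp only [List.map_cons, List.sum_cons]; ring
    have e4 : (r :: R).length = R.length + 1 := rfl
    rw [e1, ih, e2, e3, e4]
    set p1 : ℤ := (r1 :: r2 :: R).sum
    set p2 : ℤ := ((r1 :: r2 :: R).map fun r => r ^ 2).sum
    set N := R.length
    unfold Ex
    push_cast
    have hs4 : s ^ 4 = 0 := by rw [pow_succ, hs, zero_mul]
    have x1 : (1 - c) ^ (N + 2) = (1 - c) ^ N * (1 - c) ^ 2 := by ring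
    have x2 : (1 - c) ^ (N + 1) = (1 - c) ^ N * (1 - c) := by ring
    have x3 : (1 - c) ^ (N + 1 + 2) = (1 - c) ^ N * (1 - c) ^ 3 := by ring
    rw [x1, x2, x3]
    set U := (1 - c) ^ N
    linear_combination (-(U * (1 - c) * c ^ 2 * p1 * r * s ^ 2)) * hh +
      U * ((1 - c) * c ^ 2 * p1 * r ^ 2 * h + (1 - c) * c ^ 2 * p2 * r * h +
        (1 - c) * c ^ 2 * p2 * r ^ 2 * h ^ 2 * s - c ^ 3 * h * (p1 ^ 2 - p2) * r -
        c ^ 3 * h ^ 2 * (p1 ^ 2 - p2) * r ^ 2 * s) * hs

/-- The factor function after deformation: `u^D - κ c u^(D-2)`, `u = 1 - c`, `D = N + 2`. -/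
def nuK (N : ℕ) (κ c : C) : C := (1 - c) ^ (N + 2) - κ * c * (1 - c) ^ N

lemma prod_Ex_zero (h s c : C) (hh : 2 * h = 1) (hs : s ^ 3 = 0) (r1 r2 : ℤ) (R : List ℤ)
    (h0 : (r1 :: r2 :: R).sum = 0) :
    ((r1 :: r2 :: R).map fun r => 1 - c * Ex h s r).prod =
      nuK R.length ((((r1 :: r2 :: R).map fun r => r ^ 2).sum : ℤ) * h * s ^ 2) c := by
  rw [prod_Ex h s c hh hs, h0]
  unfold nuK
  push_cast
  ring

/-- The differences of the pairs. -/
def dif (L : List (ℕ × ℕ)) : List ℤ := L.map fun x => (x.1 : ℤ) - x.2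

lemma numF_eq (h s Y c : C) (hh : 2 * h = 1) (hs : s ^ 3 = 0) (hY : Y = Ex h s 1)
    (L : List (ℕ × ℕ)) :
    numF Y L c = Y ^ (L.map fun x => x.2).sum * ((dif L).map fun r => 1 - c * Ex h s r).prod := by
  unfold numF dif
  induction L with
  | nil => simp
  | cons x L ih =>
    simp only [List.map_cons, List.prod_cons, List.sum_cons]
    simp only [List.map_map] at ih ⊢
    rw [ih, pow_add]
    have e : Y ^ x.2 - c * Y ^ x.1 = Y ^ x.2 * (1 - c * Ex h s ((x.1 : ℤ) - x.2)) := by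
      have : Y ^ x.1 = Y ^ x.2 * Ex h s ((x.1 : ℤ) - x.2) := by
        rw [pow_eq_Ex h s Y hh hs hY, pow_eq_Ex h s Y hh hs hY, Ex_add h s hh hs]
        congr 1
        ring
      rw [this]
      ring
    rw [e]
    ring

lemma denF_eq_numF (Y c : C) (L : List (ℕ × ℕ)) : denF Y L c = numF Y (L.map Prod.swap) c := by
  unfold denF numF
  rw [List.map_map]
  rfl

lemma dif_swap (L : List (ℕ × ℕ)) : dif (L.map Prod.swap) = (dif L).map fun r => -r := by
  unfold dif
  rw [List.map_map, List.map_map]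
  congr 1
  funext x
  simp

lemma sum_neg_list (R : List ℤ) : (R.map fun r => -r).sum = -R.sum := by
  induction R with
  | nil => simp
  | cons r R ih => simp only [List.map_cons, List.sum_cons, ih]; ring

lemma dif_sum (L : List (ℕ × ℕ)) :
    (dif L).sum = (((L.map fun x => x.1).sum : ℕ) : ℤ) - (((L.map fun x => x.2).sum : ℕ) : ℤ) := by
  unfold dif
  induction L with
  | nil => simp
  | cons x L ih => simp only [List.map_cons, List.sum_cons, ih]; push_cast; ring

/-- The sum of the squares of the differences. -/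
def sq (L : List (ℕ × ℕ)) : ℤ := ((dif L).map fun r => r ^ 2).sum

lemma numF_final (h s Y c : C) (hh : 2 * h = 1) (hs : s ^ 3 = 0) (hY : Y = Ex h s 1)
    (L : List (ℕ × ℕ)) (N : ℕ) (hL : L.length = N + 2) (h0 : (dif L).sum = 0) :
    numF Y L c = Y ^ (L.map fun x => x.2).sum * nuK N ((sq L : C) * h * s ^ 2) c := by
  rw [numF_eq h s Y c hh hs hY]
  congr 1
  match L, hL, h0 with
  | x :: y :: L, hL, h0 =>
    have h1 := prod_Ex_zero h s c hh hs ((x.1 : ℤ) - x.2) ((y.1 : ℤ) - y.2) (dif L) h0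
    have h2 : (dif L).length = N := by
      unfold dif
      rw [List.length_map]
      simpa using hL
    rw [h2] at h1
    exact h1

lemma denF_final (h s Y c : C) (hh : 2 * h = 1) (hs : s ^ 3 = 0) (hY : Y = Ex h s 1)
    (L : List (ℕ × ℕ)) (N : ℕ) (hL : L.length = N + 2) (h0 : (dif L).sum = 0) :
    denF Y L c = Y ^ (L.map fun x => x.2).sum * nuK N ((sq L : C) * h * s ^ 2) c := by
  rw [denF_eq_numF, numF_final h s Y c hh hs hY (L.map Prod.swap) N (by simpa using hL)
    (by rw [dif_swap, sum_neg_list, h0, neg_zero])]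
  have e1 : ((L.map Prod.swap).map fun x => x.2).sum = (L.map fun x => x.2).sum := by
    have h1 := dif_sum L
    rw [h0] at h1
    have h2 : ((L.map Prod.swap).map fun x => x.2).sum = (L.map fun x => x.1).sum := by
      rw [List.map_map]
      rfl
    rw [h2]
    omega
  have e2 : sq (L.map Prod.swap) = sq L := by
    unfold sq
    rw [dif_swap, List.map_map]
    congr 2
    funext r
    simp
  rw [e1, e2]

/-- The deformed sum to second order. -/
theorem W_taylor (h s Y : C) (hh : 2 * h = 1) (hs : s ^ 3 = 0) (hY : Y = Ex h s 1)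
    (L : List (ℕ × ℕ)) (N : ℕ) (hL : L.length = N + 2) (h0 : (dif L).sum = 0)
    (d e M : ℕ) (q : C) :
    W d e M q (numF Y L) (denF Y L) = Y ^ ((L.map fun x => x.2).sum * M) *
      W d e M q (nuK N ((sq L : C) * h * s ^ 2)) (nuK N ((sq L : C) * h * s ^ 2)) := by
  unfold W
  rw [Finset.mul_sum]
  refine Finset.sum_congr rfl fun k hk => ?_
  have hk' : k ≤ M := by rw [mem_range] at hk; omega
  simp only [numF_final h s Y _ hh hs hY L N hL h0, denF_final h s Y _ hh hs hY L N hL h0]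
  set B := (L.map fun x => x.2).sum
  set κ := (sq L : C) * h * s ^ 2
  have e1 : ∏ j ∈ range k, ((1 - q ^ (1 + d * j)) * (Y ^ B * nuK N κ (q ^ (1 + d * j)))) =
      Y ^ (B * k) * ∏ j ∈ range k, ((1 - q ^ (1 + d * j)) * nuK N κ (q ^ (1 + d * j))) := by
    have : Y ^ (B * k) = ∏ _j ∈ range k, Y ^ B := by
      rw [Finset.prod_const, card_range, pow_mul]
    rw [this, ← Finset.prod_mul_distrib]
    exact Finset.prod_congr rfl fun j _ => by ring
  have e2 : ∏ j ∈ Ico (k + 1) (M + 1), ((1 - q ^ (d * j)) * (Y ^ B * nuK N κ (q ^ (d * j)))) =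
      Y ^ (B * (M - k)) * ∏ j ∈ Ico (k + 1) (M + 1), ((1 - q ^ (d * j)) * nuK N κ (q ^ (d * j))) := by
    have : Y ^ (B * (M - k)) = ∏ _j ∈ Ico (k + 1) (M + 1), Y ^ B := by
      rw [Finset.prod_const, Nat.card_Ico, pow_mul]
      congr 1
      omega
    rw [this, ← Finset.prod_mul_distrib]
    exact Finset.prod_congr rfl fun j _ => by ring
  have e3 : B * M = B * k + B * (M - k) := by rw [← mul_add]; congr 1; omega
  rw [e1, e2, e3, pow_add]
  ring

end Pool.Agent.T9h94.QS
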