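import Pool.Agent.T9h94.QS.Shape

set_option autoImplicit false

/-!
# Exact vanishing of the deformed sums
-/

namespace Pool.Agent.T9h94.QS

open Finset Polynomial

section defs

variable {C : Type*} [CommRing C]

/-- The sum with denominators cleared: `ν` gives the numerator factors, `δ` the denominator
factors. -/
def W (d e M : ℕ) (q : C) (ν δ : C → C) : C :=
  ∑ k ∈ range (M + 1), (1 - q ^ (1 + 2 * d * k)) * q ^ (e * k) *
    (∏ j ∈ range k, ((1 - q ^ (1 + d * j)) * ν (q ^ (1 + d * j)))) *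
    ∏ j ∈ Ico (k + 1) (M + 1), ((1 - q ^ (d * j)) * δ (q ^ (d * j)))

/-- `∏ (Y^b - c Y^a)` over the pairs `(a, b)` of the list. -/
def numF (Y : C) (L : List (ℕ × ℕ)) (c : C) : C := (L.map fun x => Y ^ x.2 - c * Y ^ x.1).prod

/-- `∏ (Y^a - c Y^b)` over the pairs `(a, b)` of the list. -/
def denF (Y : C) (L : List (ℕ × ℕ)) (c : C) : C := (L.map fun x => Y ^ x.1 - c * Y ^ x.2).prod

end defs

variable {K : Type*} [Field K]

/-- `∏_{j<k} (1 - q^(1+dj+nr)) / (1 - q^(d(j+1)-nr))`. -/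
noncomputable def gr (q : K) (d n : ℕ) (r : ℤ) (k : ℕ) : K :=
  ∏ j ∈ range k, ((1 - q ^ (1 + (d : ℤ) * j + n * r)) / (1 - q ^ ((d : ℤ) * (j + 1) - n * r)))

/-- `q` is not zero and not a root of unity. -/
def Good (q : K) : Prop := q ≠ 0 ∧ ∀ z : ℤ, z ≠ 0 → 1 - q ^ z ≠ 0

lemma gr_pair {q : K} (hq : Good q) (d n u : ℕ) (r r' : ℤ)
    (h : 1 + n * (r + r') = d * ((u : ℤ) + 1))
    (hr : ∀ j : ℕ, (d : ℤ) * (j + 1) - n * r ≠ 0) (hr' : ∀ j : ℕ, (d : ℤ) * (j + 1) - n * r' ≠ 0) :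
    Nice q (q ^ d) u (fun k => gr q d n r k * gr q d n r' k) := by
  have hp : q ^ d ≠ 0 := pow_ne_zero _ hq.1
  have hxx : q ^ (1 + n * r) * q ^ (1 + n * r') = q * (q ^ d) ^ (u + 1) := by
    rw [← zpow_add₀ hq.1, ← pow_mul, ← pow_succ', ← zpow_natCast]
    congr 1
    push_cast
    linarith
  have key : ∀ (s : ℤ) (z : ℕ), q ^ s * (q ^ d) ^ ((z : ℤ) - u) = q ^ (s + d * ((z : ℤ) - u)) := by
    intro s z
    rw [← zpow_natCast q d, ← zpow_mul, ← zpow_add₀ hq.1]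
  have key2 : ∀ (s : ℤ) (z : ℕ), q ^ s * (q ^ d) ^ (z : ℤ) = q ^ (s + d * (z : ℤ)) := by
    intro s z
    rw [← zpow_natCast q d, ← zpow_mul, ← zpow_add₀ hq.1]
  have h1 : ∀ j : ℕ, 1 - q ^ (1 + n * r) * (q ^ d) ^ ((j : ℤ) - u) ≠ 0 := by
    intro j
    rw [key]
    apply hq.2
    have := hr' j
    intro h2
    apply this
    linarith
  have h2 : ∀ j : ℕ, 1 - q ^ (1 + n * r') * (q ^ d) ^ ((j : ℤ) - u) ≠ 0 := by
    intro j
    rw [key]
    apply hq.2
    have := hr j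
    intro h2
    apply this
    linarith
  have e : (fun k => gr q d n r k * gr q d n r' k) = fun k =>
      (hf (q ^ d) (q ^ (1 + n * r)) u k * hf (q ^ d) (q ^ (1 + n * r')) u k) /
      (hf (q ^ d) (q ^ (1 + n * r)) u 0 * hf (q ^ d) (q ^ (1 + n * r')) u 0) := by
    funext k
    rw [mul_div_mul_comm, ← ratio_eq _ _ u k h1, ← ratio_eq _ _ u k h2]
    unfold gr
    rw [← Finset.prod_mul_distrib, ← Finset.prod_mul_distrib]
    refine Finset.prod_congr rfl fun j _ => ?_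
    rw [key, key, key2, key2]
    have e1 : (1 + (n : ℤ) * r + d * ((j : ℤ) - u)) = (d : ℤ) * (j + 1) - n * r' := by linarith
    have e2 : (1 + (n : ℤ) * r' + d * ((j : ℤ) - u)) = (d : ℤ) * (j + 1) - n * r := by linarith
    have e3 : (1 + (n : ℤ) * r + d * (j : ℤ)) = 1 + (d : ℤ) * j + n * r := by ring
    have e4 : (1 + (n : ℤ) * r' + d * (j : ℤ)) = 1 + (d : ℤ) * j + n * r' := by ring
    rw [e1, e2, e3, e4]
    ring
  rw [e]
  exact (nice_pair q (q ^ d) _ _ hp u hxx).div_const _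

lemma gr_single {q : K} (hq : Good q) (d n v : ℕ) (r : ℤ)
    (h : 1 + 2 * n * r = d * (2 * (v : ℤ) + 1))
    (hr : ∀ j : ℕ, (d : ℤ) * (j + 1) - n * r ≠ 0) :
    Nice q (q ^ d) v (fun k => gr q d n r k) := by
  have hp : q ^ d ≠ 0 := pow_ne_zero _ hq.1
  have hxx : q ^ (1 + n * r) * q ^ (1 + n * r) = q * (q ^ d) ^ (2 * v + 1) := by
    rw [← zpow_add₀ hq.1, ← pow_mul, ← pow_succ', ← zpow_natCast]
    congr 1
    push_cast
    linarith
  have key : ∀ (s : ℤ) (z : ℕ), q ^ s * (q ^ d) ^ ((z : ℤ) - ((2 * v : ℕ) : ℤ)) =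
      q ^ (s + d * ((z : ℤ) - ((2 * v : ℕ) : ℤ))) := by
    intro s z
    rw [← zpow_natCast q d, ← zpow_mul, ← zpow_add₀ hq.1]
  have key2 : ∀ (s : ℤ) (z : ℕ), q ^ s * (q ^ d) ^ (z : ℤ) = q ^ (s + d * (z : ℤ)) := by
    intro s z
    rw [← zpow_natCast q d, ← zpow_mul, ← zpow_add₀ hq.1]
  have e1 : ∀ j : ℕ, (1 + (n : ℤ) * r + d * ((j : ℤ) - ((2 * v : ℕ) : ℤ))) =
      (d : ℤ) * (j + 1) - n * r := by
    intro j
    push_cast
    linarith
  have h1 : ∀ j : ℕ, 1 - q ^ (1 + n * r) * (q ^ d) ^ ((j : ℤ) - ((2 * v : ℕ) : ℤ)) ≠ 0 := by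
    intro j
    rw [key, e1]
    exact hq.2 _ (hr j)
  have e : (fun k => gr q d n r k) = fun k =>
      hf (q ^ d) (q ^ (1 + n * r)) (2 * v) k / hf (q ^ d) (q ^ (1 + n * r)) (2 * v) 0 := by
    funext k
    rw [← ratio_eq _ _ (2 * v) k h1]
    unfold gr
    refine Finset.prod_congr rfl fun j _ => ?_
    rw [key, key2, e1]
    have e3 : (1 + (n : ℤ) * r + d * (j : ℤ)) = 1 + (d : ℤ) * j + n * r := by ring
    rw [e3]
  rw [e]
  exact (nice_single q (q ^ d) _ hp v hxx).div_const _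

lemma gr_first {q : K} (hq : Good q) (d n s M k : ℕ) (hs : n * s = 1 + d * M) (hk : k ≤ M) :
    (1 - q ^ (1 + 2 * d * k)) * (q ^ d) ^ (M * k) * gr q d n 0 k * gr q d n (-(s : ℤ)) k =
      wt q (q ^ d) M k := by
  unfold wt gr
  have h0 : (1 - q ^ (1 + 2 * d * k)) = 1 - q * (q ^ d) ^ (2 * k) := by
    rw [← pow_mul, ← pow_succ']; congr 2; ring
  rw [h0]
  have h1 : ∏ j ∈ range k, ((1 - q ^ (1 + (d : ℤ) * j + n * 0)) /
      (1 - q ^ ((d : ℤ) * (j + 1) - n * 0))) =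
      ∏ j ∈ range k, (1 - q * (q ^ d) ^ j) / (1 - (q ^ d) ^ (j + 1)) := by
    refine Finset.prod_congr rfl fun j _ => ?_
    have e1 : q ^ (1 + (d : ℤ) * j + n * 0) = q * (q ^ d) ^ j := by
      rw [← pow_mul, ← pow_succ', ← zpow_natCast]; congr 1; push_cast; ring
    have e2 : q ^ ((d : ℤ) * (j + 1) - n * 0) = (q ^ d) ^ (j + 1) := by
      rw [← pow_mul, ← zpow_natCast]; congr 1
    rw [e1, e2]
  have h2 : ∏ j ∈ range k, ((1 - q ^ (1 + (d : ℤ) * j + n * (-(s : ℤ)))) /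
      (1 - q ^ ((d : ℤ) * (j + 1) - n * (-(s : ℤ))))) =
      ∏ j ∈ range k, (1 - ((q ^ d) ^ (M - j))⁻¹) / (1 - q * (q ^ d) ^ (M + 1 + j)) := by
    refine Finset.prod_congr rfl fun j hj => ?_
    rw [mem_range] at hj
    have hs' : (n : ℤ) * s = 1 + d * M := by exact_mod_cast hs
    have e1 : q ^ (1 + (d : ℤ) * j + n * (-(s : ℤ))) = ((q ^ d) ^ (M - j))⁻¹ := by
      rw [← pow_mul, ← zpow_natCast, ← zpow_neg]
      congr 1
      have : ((M - j : ℕ) : ℤ) = M - j := by omega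
      push_cast
      rw [this]
      linarith
    have e2 : q ^ ((d : ℤ) * (j + 1) - n * (-(s : ℤ))) = q * (q ^ d) ^ (M + 1 + j) := by
      rw [← pow_mul, ← pow_succ', ← zpow_natCast]
      congr 1
      push_cast
      linarith
    rw [e1, e2]
  rw [h1, h2]

/-- The deformed sum vanishes. -/
theorem sum_vanish {q : K} (hq : Good q) (d n s M t E : ℕ) (hd : d = 2 * t + 1) (ht : 2 ≤ t)
    (hs : n * s = 1 + d * M) (G : ℕ → K) (hG : Nice q (q ^ d) E G) (hE : t - 1 + E = M) :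
    ∑ k ∈ range (M + 1), (1 - q ^ (1 + 2 * d * k)) * q ^ (d * (t - 1) * k) *
      (gr q d n 0 k * gr q d n (-(s : ℤ)) k * G k) = 0 := by
  obtain ⟨P, hP, hP'⟩ := hG
  have hp : q ^ d ≠ 0 := pow_ne_zero _ hq.1
  have hp1 : ∀ i, 1 - (q ^ d) ^ (i + 1) ≠ 0 := by
    intro i
    rw [← pow_mul, ← zpow_natCast]
    apply hq.2
    have : 0 < d * (i + 1) := by subst hd; positivity
    exact_mod_cast this.ne'
  have ha : ∀ i, 1 - q * (q ^ d) ^ i ≠ 0 := by
    intro i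
    rw [← pow_mul, ← pow_succ', ← zpow_natCast]
    apply hq.2
    have : 0 < d * i + 1 := by positivity
    exact_mod_cast this.ne'
  have h := sum_wt q (q ^ d) hp hp1 ha M P (by omega)
  rw [← h]
  refine Finset.sum_congr rfl fun k hk => ?_
  have hk' : k ≤ M := by rw [mem_range] at hk; omega
  rw [← gr_first hq d n s M k hs hk', hP', ← hE]
  have e : q ^ (d * (t - 1) * k) * (q ^ d) ^ (E * k) = (q ^ d) ^ ((t - 1 + E) * k) := by
    rw [← pow_mul, ← pow_mul, ← pow_add]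
    congr 1
    ring
  rw [← e]
  ring

/-- One factor of the ratio. -/
lemma factor_ratio {q : K} (hq : q ≠ 0) (d n a b j : ℕ) :
    ((q ^ n) ^ b - q ^ (1 + d * j) * (q ^ n) ^ a) / ((q ^ n) ^ a - q ^ (d * (j + 1)) * (q ^ n) ^ b) =
      q ^ (-((n : ℤ) * ((a : ℤ) - b))) * ((1 - q ^ (1 + (d : ℤ) * j + n * ((a : ℤ) - b))) /
        (1 - q ^ ((d : ℤ) * (j + 1) - n * ((a : ℤ) - b)))) := by
  have h1 : (q ^ n) ^ b - q ^ (1 + d * j) * (q ^ n) ^ a =
      q ^ ((n : ℤ) * b) * (1 - q ^ (1 + (d : ℤ) * j + n * ((a : ℤ) - b))) := by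
    rw [mul_sub, mul_one, ← zpow_add₀ hq, ← pow_mul, ← pow_mul, ← pow_add, ← zpow_natCast,
      ← zpow_natCast]
    congr 2
    push_cast; ring
  have h2 : (q ^ n) ^ a - q ^ (d * (j + 1)) * (q ^ n) ^ b =
      q ^ ((n : ℤ) * a) * (1 - q ^ ((d : ℤ) * (j + 1) - n * ((a : ℤ) - b))) := by
    rw [mul_sub, mul_one, ← zpow_add₀ hq, ← pow_mul, ← pow_mul, ← pow_add, ← zpow_natCast,
      ← zpow_natCast]
    congr 2 <;> (push_cast; ring)
  rw [h1, h2, mul_div_mul_comm, ← zpow_sub₀ hq]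
  congr 2
  ring

lemma list_ratio {q : K} (hq : q ≠ 0) (d n k : ℕ) (L : List (ℕ × ℕ)) :
    ∏ j ∈ range k, (numF (q ^ n) L (q ^ (1 + d * j)) / denF (q ^ n) L (q ^ (d * (j + 1)))) =
      q ^ (-((n : ℤ) * k * (L.map fun x => (x.1 : ℤ) - x.2).sum)) *
        (L.map fun x => gr q d n ((x.1 : ℤ) - x.2) k).prod := by
  induction L with
  | nil => simp [numF, denF]
  | cons x L ih =>
    have h1 : ∀ j, numF (q ^ n) (x :: L) (q ^ (1 + d * j)) / denF (q ^ n) (x :: L) (q ^ (d * (j + 1)))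
        = (((q ^ n) ^ x.2 - q ^ (1 + d * j) * (q ^ n) ^ x.1) /
          ((q ^ n) ^ x.1 - q ^ (d * (j + 1)) * (q ^ n) ^ x.2)) *
          (numF (q ^ n) L (q ^ (1 + d * j)) / denF (q ^ n) L (q ^ (d * (j + 1)))) := by
      intro j
      unfold numF denF
      rw [List.map_cons, List.prod_cons, List.map_cons, List.prod_cons, mul_div_mul_comm]
    simp only [h1]
    rw [Finset.prod_mul_distrib, ih]
    simp only [factor_ratio hq]
    rw [Finset.prod_mul_distrib, Finset.prod_const, card_range, List.map_cons, List.map_cons,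
      List.prod_cons, List.sum_cons]
    have e : q ^ (-((n : ℤ) * k * (((x.1 : ℤ) - x.2) + (L.map fun x => (x.1 : ℤ) - x.2).sum))) =
        (q ^ (-((n : ℤ) * ((x.1 : ℤ) - x.2)))) ^ k *
          q ^ (-((n : ℤ) * k * (L.map fun x => (x.1 : ℤ) - x.2).sum)) := by
      rw [← zpow_natCast, ← zpow_mul, ← zpow_add₀ hq]
      congr 1
      ring
    rw [e]
    unfold gr
    ring

/-- `W` at `Y = q^n` vanishes. -/
theorem W_vanish {q : K} (hq : Good q) (d n s M t E : ℕ) (hd : d = 2 * t + 1) (ht : 2 ≤ t)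
    (hs : n * s = 1 + d * M) (L0 : List (ℕ × ℕ))
    (hG : Nice q (q ^ d) E (fun k => (L0.map fun x => gr q d n ((x.1 : ℤ) - x.2) k).prod))
    (hE : t - 1 + E = M)
    (hsum : (((0, s) :: L0).map fun x => (x.1 : ℤ) - x.2).sum = 0)
    (hne : ∀ x ∈ L0, ∀ j : ℕ, (d : ℤ) * (j + 1) - n * ((x.1 : ℤ) - x.2) ≠ 0) :
    W d (d * (t - 1)) M q (numF (q ^ n) ((0, s) :: L0)) (denF (q ^ n) ((0, s) :: L0)) = 0 := by
  set L := (0, s) :: L0 with hL
  have hne' : ∀ x ∈ L, ∀ j : ℕ, (d : ℤ) * (j + 1) - n * ((x.1 : ℤ) - x.2) ≠ 0 := by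
    intro x hx j
    rw [hL, List.mem_cons] at hx
    rcases hx with rfl | hx
    · simp only [Nat.cast_zero, zero_sub, mul_neg, sub_neg_eq_add]
      have : 0 < d := by omega
      positivity
    · exact hne x hx j
  have hden : ∀ j : ℕ, denF (q ^ n) L (q ^ (d * (j + 1))) ≠ 0 := by
    intro j
    unfold denF
    refine List.prod_ne_zero ?_
    intro h0
    rw [List.mem_map] at h0
    obtain ⟨x, hx, hx0⟩ := h0
    have h2 : (q ^ n) ^ x.1 - q ^ (d * (j + 1)) * (q ^ n) ^ x.2 =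
        q ^ ((n : ℤ) * x.1) * (1 - q ^ ((d : ℤ) * (j + 1) - n * ((x.1 : ℤ) - x.2))) := by
      rw [mul_sub, mul_one, ← zpow_add₀ hq.1, ← pow_mul, ← pow_mul, ← pow_add, ← zpow_natCast,
        ← zpow_natCast]
      congr 2 <;> (push_cast; ring)
    rw [h2] at hx0
    rcases mul_eq_zero.1 hx0 with h3 | h3
    · exact zpow_ne_zero _ hq.1 h3
    · exact hq.2 _ (hne' x hx j) h3
  have hone : ∀ j : ℕ, 1 - q ^ (d * (j + 1)) ≠ 0 := by
    intro j
    rw [← zpow_natCast]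
    apply hq.2
    have : 0 < d * (j + 1) := by subst hd; positivity
    exact_mod_cast this.ne'
  set D : ℕ → K := fun j => (1 - q ^ (d * j)) * denF (q ^ n) L (q ^ (d * j)) with hD
  have hD0 : ∀ j, D (j + 1) ≠ 0 := fun j => mul_ne_zero (hone j) (hden j)
  have h := sum_vanish hq d n s M t E hd ht hs _ hG hE
  have key : W d (d * (t - 1)) M q (numF (q ^ n) L) (denF (q ^ n) L) =
      (∏ j ∈ range M, D (j + 1)) * ∑ k ∈ range (M + 1), (1 - q ^ (1 + 2 * d * k)) *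
        q ^ (d * (t - 1) * k) * (gr q d n 0 k * gr q d n (-(s : ℤ)) k *
          (L0.map fun x => gr q d n ((x.1 : ℤ) - x.2) k).prod) := by
    unfold W
    rw [Finset.mul_sum]
    refine Finset.sum_congr rfl fun k hk => ?_
    have hk' : k ≤ M := by rw [mem_range] at hk; omega
    have h1 : ∏ j ∈ Ico (k + 1) (M + 1), ((1 - q ^ (d * j)) * denF (q ^ n) L (q ^ (d * j))) =
        (∏ j ∈ range M, D (j + 1)) / ∏ j ∈ range k, D (j + 1) := by
      rw [eq_div_iff (Finset.prod_ne_zero_iff.2 fun j _ => hD0 j)]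
      have e1 : M = k + (M - k) := by omega
      nth_rewrite 2 [e1]
      rw [prod_range_add, mul_comm]
      congr 1
      rw [Finset.prod_Ico_eq_prod_range]
      have e2 : M + 1 - (k + 1) = M - k := by omega
      rw [e2]
      refine Finset.prod_congr rfl fun j _ => ?_
      simp only [hD]
      have e3 : k + 1 + j = k + j + 1 := by ring
      rw [e3]
    have h2 := list_ratio hq.1 d n k L
    rw [hsum, mul_zero, neg_zero, zpow_zero, one_mul] at h2
    have h3 : (L.map fun x => gr q d n ((x.1 : ℤ) - x.2) k).prod =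
        gr q d n (-(s : ℤ)) k * (L0.map fun x => gr q d n ((x.1 : ℤ) - x.2) k).prod := by
      rw [hL, List.map_cons, List.prod_cons]
      congr 2
      simp
    have h4 : gr q d n 0 k = ∏ j ∈ range k, ((1 - q ^ (1 + d * j)) / (1 - q ^ (d * (j + 1)))) := by
      unfold gr
      refine Finset.prod_congr rfl fun j _ => ?_
      rw [mul_zero, add_zero, sub_zero, ← zpow_natCast, ← zpow_natCast]
      push_cast
      rfl
    rw [h1, h4, mul_assoc (∏ j ∈ range k, _) (gr _ _ _ _ _), ← h3, ← h2]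
    simp only [hD, Finset.prod_mul_distrib, Finset.prod_div_distrib]
    have n1 : ∏ j ∈ range k, (1 - q ^ (d * (j + 1))) ≠ 0 :=
      Finset.prod_ne_zero_iff.2 fun j _ => hone j
    have n2 : ∏ j ∈ range k, denF (q ^ n) L (q ^ (d * (j + 1))) ≠ 0 :=
      Finset.prod_ne_zero_iff.2 fun j _ => hden j
    field_simp
  rw [key, h, mul_zero]

end Pool.Agent.T9h94.QS
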